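import Mathlib

/-!
# The spherical maximal operator is not gradient-bounded on `W^{1,p}` for small `p > 1`

For every `d ≥ 2` and every `1 < p < 1 + 1 / (2 (d - 1))` we show that the map
`f ↦ |∇ M_S f|` is not bounded from `W^{1,p}(ℝ^d)` to `L^p(ℝ^d)`.
This is the negated form of Q1 of `MP_ff3fe0_an` (Hajłasz–Onninen).
-/

open MeasureTheory Set Metric
open scoped ENNReal NNReal Pointwise ContDiff

namespace Pool.Agent.Results.MP_ff3fe0_an.SphericalSmallP

/-- Euclidean space of dimension `d`. -/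
abbrev E (d : ℕ) := EuclideanSpace ℝ (Fin d)

/-- The rotation-invariant surface measure on the unit sphere of `ℝ^d`, normalised to have total
mass one. -/
noncomputable def sphereMeasure (d : ℕ) : Measure (sphere (0 : E d) 1) :=
  ((volume : Measure (E d)).toSphere univ)⁻¹ • (volume : Measure (E d)).toSphere

lemma toSphere_univ_ne_zero {d : ℕ} (hd : 1 ≤ d) :
    (volume : Measure (E d)).toSphere univ ≠ 0 := by
  have : Nonempty (Fin d) := ⟨⟨0, hd⟩⟩
  have : Nontrivial (E d) := inferInstance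
  rw [Ne, Measure.measure_univ_eq_zero]
  exact Measure.toSphere_ne_zero _

lemma toSphere_univ_ne_top (d : ℕ) : (volume : Measure (E d)).toSphere univ ≠ ⊤ :=
  measure_ne_top _ _

lemma isProb {d : ℕ} (hd : 1 ≤ d) : IsProbabilityMeasure (sphereMeasure d) := by
  constructor
  unfold sphereMeasure
  rw [Measure.smul_apply, smul_eq_mul]
  exact ENNReal.inv_mul_cancel (toSphere_univ_ne_zero hd) (toSphere_univ_ne_top d)

/-- Caps of the same radius have the same measure. -/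
lemma cap_eq {d : ℕ} (e e' : sphere (0 : E d) 1) (r : ℝ) :
    sphereMeasure d (ball e r) = sphereMeasure d (ball e' r) := by
  have hn : ‖(e : E d)‖ = ‖(e' : E d)‖ := by
    rw [norm_eq_of_mem_sphere e, norm_eq_of_mem_sphere e']
  set U : E d ≃ₗᵢ[ℝ] E d := (ℝ ∙ ((e : E d) - e'))ᗮ.reflection with hU
  have hUe : U e = e' := Submodule.reflection_sub hn
  unfold sphereMeasure
  rw [Measure.smul_apply, Measure.smul_apply, Measure.toSphere_apply' _ measurableSet_ball,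
    Measure.toSphere_apply' _ measurableSet_ball]
  congr 2
  have hset : (Ioo (0 : ℝ) 1 • (Subtype.val '' ball e r) : Set (E d)) =
      U ⁻¹' (Ioo (0 : ℝ) 1 • (Subtype.val '' ball e' r)) := by
    ext z
    simp only [Set.mem_smul, Set.mem_image, Set.mem_preimage]
    constructor
    · rintro ⟨t, ht, _, ⟨y, hy, rfl⟩, rfl⟩
      refine ⟨t, ht, U y, ⟨⟨U y, ?_⟩, ?_, rfl⟩, ?_⟩
      · rw [mem_sphere_zero_iff_norm, U.norm_map, norm_eq_of_mem_sphere y]
      · rw [mem_ball, Subtype.dist_eq] at hy ⊢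
        show dist (U y) (e' : E d) < r
        rw [← hUe, U.dist_map]
        exact hy
      · rw [map_smul]
    · rintro ⟨t, ht, _, ⟨y, hy, rfl⟩, hz⟩
      refine ⟨t, ht, U.symm y, ⟨⟨U.symm y, ?_⟩, ?_, rfl⟩, ?_⟩
      · rw [mem_sphere_zero_iff_norm, U.symm.norm_map, norm_eq_of_mem_sphere y]
      · rw [mem_ball, Subtype.dist_eq] at hy ⊢
        show dist (U.symm y) (e : E d) < r
        have : (e : E d) = U.symm e' := by rw [← hUe, U.symm_apply_apply]
        rw [this, U.symm.dist_map]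
        exact hy
      · rw [← map_smul, hz, U.symm_apply_apply]
  rw [hset]
  exact U.measurePreserving.measure_preimage_emb U.toHomeomorph.measurableEmbedding _

/-- The point `(1, 0, ..., 0)` of the unit sphere. -/
noncomputable def pole (n : ℕ) : sphere (0 : E (n + 2)) 1 :=
  ⟨EuclideanSpace.single 0 1, by simp⟩

/-- The measure of a cap of radius `r`. -/
noncomputable def cp (n : ℕ) (r : ℝ) : ℝ := (sphereMeasure (n + 2) (ball (pole n) r)).toReal

lemma cp_nonneg (n : ℕ) (r : ℝ) : 0 ≤ cp n r := ENNReal.toReal_nonneg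

lemma cap_ne_top {n : ℕ} (s : Set (sphere (0 : E (n + 2)) 1)) : sphereMeasure (n + 2) s ≠ ⊤ := by
  have := isProb (d := n + 2) (by omega)
  exact measure_ne_top _ _

lemma cp_le_one (n : ℕ) (r : ℝ) : cp n r ≤ 1 := by
  have := isProb (d := n + 2) (by omega)
  unfold cp
  exact ENNReal.toReal_le_of_le_ofReal one_pos.le (by rw [ENNReal.ofReal_one]; exact prob_le_one)

lemma cp_mono (n : ℕ) {r s : ℝ} (h : r ≤ s) : cp n r ≤ cp n s := by
  unfold cp
  exact ENNReal.toReal_mono (cap_ne_top _) (measure_mono (ball_subset_ball h))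

lemma cap_ofReal (n : ℕ) (e : sphere (0 : E (n + 2)) 1) (r : ℝ) :
    sphereMeasure (n + 2) (ball e r) = ENNReal.ofReal (cp n r) := by
  unfold cp
  rw [ENNReal.ofReal_toReal (cap_ne_top _), cap_eq e (pole n) r]

/-- A box contained in the cone over a cap. -/
lemma box_subset {n : ℕ} {r : ℝ} (hr0 : 0 < r) (hr1 : r ≤ 1) {z : E (n + 2)}
    (h0 : z 0 ∈ Ioo (1 / 2 : ℝ) (3 / 4))
    (hi : ∀ i : Fin (n + 1), z i.succ ∈ Ioo (-(r / (4 * (n + 2)))) (r / (4 * (n + 2)))) :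
    z ∈ (Ioo (0 : ℝ) 1 • (Subtype.val '' ball (pole n) r) : Set (E (n + 2))) := by
  set ρ : ℝ := r / (4 * (n + 2)) with hρ
  have hn : (0 : ℝ) ≤ n := Nat.cast_nonneg n
  have hρ0 : 0 < ρ := by positivity
  set W : ℝ := ∑ i : Fin (n + 1), (z i.succ) ^ 2 with hW
  have hW0 : 0 ≤ W := Finset.sum_nonneg (fun i _ => sq_nonneg _)
  have hW1 : W ≤ r ^ 2 / 16 := by
    have h1 : W ≤ ∑ i : Fin (n + 1), ρ ^ 2 := by
      apply Finset.sum_le_sum
      intro i _
      have := hi i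
      apply sq_le_sq'
      · linarith [this.1]
      · linarith [this.2]
    rw [Finset.sum_const, Finset.card_univ, Fintype.card_fin, nsmul_eq_mul] at h1
    refine le_trans h1 ?_
    push_cast
    rw [hρ, div_pow, mul_pow]
    rw [mul_div_assoc', div_le_div_iff₀ (by positivity) (by norm_num)]
    have h2 : ((n : ℝ) + 1) ≤ ((n : ℝ) + 2) ^ 2 := by nlinarith
    have h3 : 0 ≤ r ^ 2 := sq_nonneg r
    nlinarith [mul_le_mul_of_nonneg_left h2 h3]
  have hW2 : W ≤ 1 / 16 := by nlinarith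
  set m : ℝ := ‖z‖ with hm
  have hmsq : m ^ 2 = (z 0) ^ 2 + W := by
    rw [hm, EuclideanSpace.real_norm_sq_eq, Fin.sum_univ_succ]
  have hm0 : 0 ≤ m := norm_nonneg z
  have hmz : z 0 ≤ m := by
    by_contra hcon
    push Not at hcon
    nlinarith [h0.1]
  have hmhalf : 1 / 2 < m := lt_of_lt_of_le h0.1 hmz
  have hmpos : 0 < m := by linarith
  have hm1 : m < 1 := by
    by_contra hcon
    push Not at hcon
    nlinarith [h0.1, h0.2]
  have hdiff : m - z 0 ≤ W := by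
    have : (m - z 0) * (m + z 0) = W := by nlinarith
    nlinarith [h0.1]
  rw [Set.mem_smul]
  refine ⟨m, ⟨hmpos, hm1⟩, m⁻¹ • z, ⟨⟨m⁻¹ • z, ?_⟩, ?_, rfl⟩, ?_⟩
  · rw [mem_sphere_zero_iff_norm, norm_smul, norm_inv, norm_norm, ← hm,
      inv_mul_cancel₀ hmpos.ne']
  · rw [mem_ball, Subtype.dist_eq, dist_eq_norm]
    show ‖m⁻¹ • z - EuclideanSpace.single 0 1‖ < r
    have hsq : ‖m⁻¹ • z - EuclideanSpace.single 0 1‖ ^ 2 < r ^ 2 := by
      rw [EuclideanSpace.real_norm_sq_eq, Fin.sum_univ_succ]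
      have e1 : ∀ i : Fin (n + 1), (m⁻¹ • z - EuclideanSpace.single (0 : Fin (n + 2)) (1 : ℝ)) i.succ =
          m⁻¹ * z i.succ := by
        intro i
        simp [Fin.succ_ne_zero]
      have e0 : (m⁻¹ • z - EuclideanSpace.single (0 : Fin (n + 2)) (1 : ℝ)) 0 = m⁻¹ * (z 0 - m) := by
        simp
        field_simp
      simp_rw [e1, mul_pow]
      rw [e0, ← Finset.mul_sum, ← hW, mul_pow, ← mul_add, inv_pow, inv_mul_lt_iff₀ (by positivity)]
      have h1 : (z 0 - m) ^ 2 ≤ W ^ 2 := by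
        apply sq_le_sq'
        · linarith
        · linarith
      have h2 : W ^ 2 ≤ W * (1 / 16) := by
        rw [sq]
        exact mul_le_mul_of_nonneg_left hW2 hW0
      have h3 : 1 / 4 < m ^ 2 := by nlinarith
      have h4 : 0 < r ^ 2 := by positivity
      have h5 : 1 / 4 * r ^ 2 < m ^ 2 * r ^ 2 := mul_lt_mul_of_pos_right h3 h4
      linarith
    exact lt_of_pow_lt_pow_left₀ 2 hr0.le hsq
  · rw [smul_smul, mul_inv_cancel₀ hmpos.ne', one_smul]

/-- Lower bound for the measure of a cap. -/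
lemma cp_lower (n : ℕ) : ∃ c : ℝ, 0 < c ∧ ∀ r : ℝ, 0 < r → r ≤ 1 → c * r ^ (n + 1) ≤ cp n r := by
  have hU0 := toSphere_univ_ne_zero (d := n + 2) (by omega)
  have hUt := toSphere_univ_ne_top (n + 2)
  set Um : ℝ := ((volume : Measure (E (n + 2))).toSphere univ).toReal with hUm
  have hUpos : 0 < Um := ENNReal.toReal_pos hU0 hUt
  have hn : (0 : ℝ) ≤ n := Nat.cast_nonneg n
  refine ⟨Um⁻¹ * ((n + 2) * (1 / 4 * (1 / (2 * (n + 2))) ^ (n + 1))), by positivity, ?_⟩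
  intro r hr0 hr1
  set ρ : ℝ := r / (4 * (n + 2)) with hρ
  have hρ0 : 0 < ρ := by positivity
  set B : Set (E (n + 2)) := (@WithLp.ofLp 2 (Fin (n + 2) → ℝ)) ⁻¹'
    (Set.pi univ (Fin.cons (Ioo (1 / 2 : ℝ) (3 / 4)) (fun _ : Fin (n + 1) => Ioo (-ρ) ρ))) with hB
  have hBsub : B ⊆ (Ioo (0 : ℝ) 1 • (Subtype.val '' ball (pole n) r) : Set (E (n + 2))) := by
    intro z hz
    rw [hB, Set.mem_preimage, Set.mem_univ_pi] at hz
    apply box_subset hr0 hr1
    · have := hz 0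
      rwa [Fin.cons_zero] at this
    · intro i
      have := hz i.succ
      rwa [Fin.cons_succ] at this
  have hBvol : volume B = ENNReal.ofReal (1 / 4 * (2 * ρ) ^ (n + 1)) := by
    rw [hB, (PiLp.volume_preserving_ofLp (Fin (n + 2))).measure_preimage
      (MeasurableSet.univ_pi (fun i => by
        refine Fin.cases ?_ (fun i => ?_) i
        · rw [Fin.cons_zero]; exact measurableSet_Ioo
        · rw [Fin.cons_succ]; exact measurableSet_Ioo)).nullMeasurableSet,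
      volume_pi_pi, Fin.prod_univ_succ]
    simp only [Fin.cons_zero, Fin.cons_succ, Real.volume_Ioo, Finset.prod_const, Finset.card_univ,
      Fintype.card_fin]
    rw [← ENNReal.ofReal_pow (by linarith), ← ENNReal.ofReal_mul (by norm_num)]
    congr 2
    · norm_num
    · ring
  unfold cp
  rw [sphereMeasure, Measure.smul_apply, smul_eq_mul, Measure.toSphere_apply' _ measurableSet_ball,
    ENNReal.toReal_mul, ENNReal.toReal_inv, ← hUm, mul_assoc]
  apply mul_le_mul_of_nonneg_left _ (inv_nonneg.mpr hUpos.le)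
  have hfin : ((Module.finrank ℝ (E (n + 2)) : ℕ) : ℝ≥0∞) *
      volume (Ioo (0 : ℝ) 1 • (Subtype.val '' ball (pole n) r) : Set (E (n + 2))) ≠ ⊤ := by
    rw [← Measure.toSphere_apply' _ measurableSet_ball]
    exact measure_ne_top _ _
  have h1 : ENNReal.ofReal ((n + 2) * (1 / 4 * (2 * ρ) ^ (n + 1))) ≤
      ((Module.finrank ℝ (E (n + 2)) : ℕ) : ℝ≥0∞) *
      volume (Ioo (0 : ℝ) 1 • (Subtype.val '' ball (pole n) r) : Set (E (n + 2))) := by
    rw [ENNReal.ofReal_mul (by positivity), ← hBvol, finrank_euclideanSpace_fin]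
    have : ENNReal.ofReal ((n : ℝ) + 2) = ((n + 2 : ℕ) : ℝ≥0∞) := by
      rw [← ENNReal.ofReal_natCast]
      push_cast
      rfl
    rw [this]
    gcongr
  have h2 := (ENNReal.ofReal_le_iff_le_toReal hfin).mp h1
  refine le_trans (le_of_eq ?_) h2
  have : 2 * ρ = (1 / (2 * (n + 2))) * r := by
    rw [hρ]; field_simp; ring
  rw [this, mul_pow]
  ring

/-- There are arbitrarily small radii at which the cap measure does not grow too fast. -/
lemma good_radius (n : ℕ) {Λ : ℝ} (hΛ1 : 1 < Λ) (hΛ : Λ ^ (n + 1) < 3 / 2) {r₀ : ℝ}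
    (hr₀ : 0 < r₀) : ∃ r : ℝ, 0 < r ∧ r ≤ r₀ ∧ cp n (Λ * r) ≤ 3 / 2 * cp n r := by
  by_contra hcon
  push Not at hcon
  obtain ⟨c, hc, hlow⟩ := cp_lower n
  have hΛ0 : 0 < Λ := by linarith
  set s : ℝ := min r₀ 1 with hs
  have hs0 : 0 < s := lt_min hr₀ one_pos
  have hs1 : s ≤ 1 := min_le_right _ _
  have hsr : s ≤ r₀ := min_le_left _ _
  have hsk : ∀ k : ℕ, 0 < s / Λ ^ k := fun k => by positivity
  have hsk1 : ∀ k : ℕ, s / Λ ^ k ≤ s := fun k => div_le_self hs0.le (one_le_pow₀ hΛ1.le)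
  have hind : ∀ k : ℕ, cp n (s / Λ ^ k) ≤ (2 / 3) ^ k := by
    intro k
    induction k with
    | zero => rw [pow_zero, pow_zero]; exact cp_le_one n _
    | succ k ih =>
      have h1 := hcon (s / Λ ^ (k + 1)) (hsk _) (le_trans (hsk1 _) hsr)
      have e : Λ * (s / Λ ^ (k + 1)) = s / Λ ^ k := by
        rw [pow_succ]; field_simp
      rw [e] at h1
      rw [pow_succ (2 / 3 : ℝ) k]
      linarith
  have hbase0 : 0 ≤ 2 / 3 * Λ ^ (n + 1) := by positivity
  have hbase1 : 2 / 3 * Λ ^ (n + 1) < 1 := by linarith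
  obtain ⟨k, hk⟩ := exists_pow_lt_of_lt_one (by positivity : 0 < c * s ^ (n + 1)) hbase1
  have h1 := hlow (s / Λ ^ k) (hsk k) (le_trans (hsk1 k) hs1)
  have h2 := le_trans h1 (hind k)
  rw [div_pow, ← mul_div_assoc, div_le_iff₀ (by positivity)] at h2
  have e : (2 / 3 : ℝ) ^ k * (Λ ^ k) ^ (n + 1) = (2 / 3 * Λ ^ (n + 1)) ^ k := by
    rw [mul_pow, ← pow_mul, ← pow_mul, mul_comm k]
  rw [e] at h2
  linarith

/-- The exact distance formula for a point of a sphere. -/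
lemma norm_sq_formula {d : ℕ} {x p y : E d} {t D : ℝ} (hD : D = ‖x - p‖) (hpos : 0 < D)
    (hy : ‖y‖ = 1) :
    ‖x - t • y - p‖ ^ 2 = (D - t) ^ 2 + D * t * ‖D⁻¹ • (x - p) - y‖ ^ 2 := by
  have e1 : x - t • y - p = (x - p) - t • y := by abel
  rw [e1]
  generalize x - p = v at hD ⊢
  rw [norm_sub_sq_real, norm_sub_sq_real, inner_smul_right, inner_smul_left, norm_smul,
    norm_smul, hy, ← hD, norm_inv, Real.norm_eq_abs, Real.norm_eq_abs, abs_of_pos hpos,
    inv_mul_cancel₀ hpos.ne', mul_one, sq_abs]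
  have : (starRingEnd ℝ) D⁻¹ = D⁻¹ := rfl
  rw [this]
  field_simp
  ring

/-- the direction from `p` to `x` -/
noncomputable def dirn {d : ℕ} (x p : E d) (h : 0 < ‖x - p‖) : sphere (0 : E d) 1 :=
  ⟨(‖x - p‖)⁻¹ • (x - p), by
    rw [mem_sphere_zero_iff_norm, norm_smul, norm_inv, norm_norm, inv_mul_cancel₀ h.ne']⟩

lemma mem_ball_dirn {d : ℕ} {x p : E d} (h : 0 < ‖x - p‖) (y : sphere (0 : E d) 1) (r : ℝ) :
    y ∈ ball (dirn x p h) r ↔ ‖(‖x - p‖)⁻¹ • (x - p) - (y : E d)‖ < r := by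
  rw [mem_ball, dist_comm, Subtype.dist_eq, dist_eq_norm]
  rfl

/-- The spherical average of `|f|` over the sphere with centre `x` and radius `t`. -/
noncomputable def sphAvg (d : ℕ) (f : E d → ℝ) (x : E d) (t : ℝ) : ℝ≥0∞ :=
  ∫⁻ y : sphere (0 : E d) 1, ‖f (x - t • (y : E d))‖ₑ ∂(sphereMeasure d)

/-- The spherical maximal function. -/
noncomputable def sphMax (d : ℕ) (f : E d → ℝ) (x : E d) : ℝ≥0∞ :=
  ⨆ (t : ℝ) (_ : 0 < t), sphAvg d f x t

/-- Lower bound for the average of a function which is at least one near two points. -/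
lemma avg_lower {n : ℕ} {f g h : E (n + 2) → ℝ} (hg : ∀ z, 0 ≤ g z) (hh : ∀ z, 0 ≤ h z)
    (hf : ∀ z, g z + h z ≤ f z) {x a b : E (n + 2)} {t r : ℝ}
    (ha : 0 < ‖x - a‖) (hb : 0 < ‖x - b‖)
    (hga : ∀ y : sphere (0 : E (n + 2)) 1, ‖(‖x - a‖)⁻¹ • (x - a) - (y : E (n + 2))‖ < r →
      1 ≤ g (x - t • (y : E (n + 2))))
    (hhb : ∀ y : sphere (0 : E (n + 2)) 1, ‖(‖x - b‖)⁻¹ • (x - b) - (y : E (n + 2))‖ < r →
      1 ≤ h (x - t • (y : E (n + 2)))) :
    ENNReal.ofReal (2 * cp n r) ≤ sphAvg (n + 2) f x t := by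
  unfold sphAvg
  have h1 : ∀ y : sphere (0 : E (n + 2)) 1,
      (ball (dirn x a ha) r).indicator (fun _ => (1 : ℝ≥0∞)) y +
        (ball (dirn x b hb) r).indicator (fun _ => (1 : ℝ≥0∞)) y ≤
      ‖f (x - t • (y : E (n + 2)))‖ₑ := by
    intro y
    have e1 : (ball (dirn x a ha) r).indicator (fun _ => (1 : ℝ≥0∞)) y ≤
        ENNReal.ofReal (g (x - t • (y : E (n + 2)))) := by
      by_cases hy : y ∈ ball (dirn x a ha) r
      · rw [indicator_of_mem hy, ← ENNReal.ofReal_one]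
        exact ENNReal.ofReal_le_ofReal (hga y ((mem_ball_dirn ha y r).mp hy))
      · rw [indicator_of_notMem hy]; exact zero_le
    have e2 : (ball (dirn x b hb) r).indicator (fun _ => (1 : ℝ≥0∞)) y ≤
        ENNReal.ofReal (h (x - t • (y : E (n + 2)))) := by
      by_cases hy : y ∈ ball (dirn x b hb) r
      · rw [indicator_of_mem hy, ← ENNReal.ofReal_one]
        exact ENNReal.ofReal_le_ofReal (hhb y ((mem_ball_dirn hb y r).mp hy))
      · rw [indicator_of_notMem hy]; exact zero_le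
    refine le_trans (add_le_add e1 e2) ?_
    rw [← ENNReal.ofReal_add (hg _) (hh _)]
    refine le_trans (ENNReal.ofReal_le_ofReal (hf _)) ?_
    rw [Real.enorm_eq_ofReal_abs]
    exact ENNReal.ofReal_le_ofReal (le_abs_self _)
  refine le_trans ?_ (lintegral_mono h1)
  rw [lintegral_add_left (measurable_const.indicator measurableSet_ball),
    lintegral_indicator measurableSet_ball, lintegral_indicator measurableSet_ball,
    setLIntegral_const, setLIntegral_const, one_mul, one_mul, cap_ofReal, cap_ofReal,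
    ← ENNReal.ofReal_add (cp_nonneg _ _) (cp_nonneg _ _)]
  apply ENNReal.ofReal_le_ofReal
  linarith

/-- Upper bound for the average. -/
lemma avg_upper {n : ℕ} {f : E (n + 2) → ℝ} {x a : E (n + 2)} {t r : ℝ}
    (ha : 0 < ‖x - a‖)
    (hfa : ∀ y : sphere (0 : E (n + 2)) 1, |f (x - t • (y : E (n + 2)))| ≤ 1)
    (hf0 : ∀ y : sphere (0 : E (n + 2)) 1, r ≤ ‖(‖x - a‖)⁻¹ • (x - a) - (y : E (n + 2))‖ →
      f (x - t • (y : E (n + 2))) = 0) :
    sphAvg (n + 2) f x t ≤ ENNReal.ofReal (cp n r) := by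
  unfold sphAvg
  have h1 : ∀ y : sphere (0 : E (n + 2)) 1, ‖f (x - t • (y : E (n + 2)))‖ₑ ≤
      (ball (dirn x a ha) r).indicator (fun _ => (1 : ℝ≥0∞)) y := by
    intro y
    by_cases hy : y ∈ ball (dirn x a ha) r
    · rw [indicator_of_mem hy, Real.enorm_eq_ofReal_abs, ← ENNReal.ofReal_one]
      exact ENNReal.ofReal_le_ofReal (hfa y)
    · rw [indicator_of_notMem hy]
      rw [mem_ball_dirn, not_lt] at hy
      rw [hf0 y hy, enorm_zero]
  refine le_trans (lintegral_mono h1) ?_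
  rw [lintegral_indicator measurableSet_ball, setLIntegral_const, one_mul, cap_ofReal]

/-- first basis vector -/
noncomputable def e0 (n : ℕ) : E (n + 2) := EuclideanSpace.single 0 1

/-- second basis vector -/
noncomputable def e1 (n : ℕ) : E (n + 2) := EuclideanSpace.single 1 1

lemma norm_e0 (n : ℕ) : ‖e0 n‖ = 1 := by simp [e0]
lemma norm_e1 (n : ℕ) : ‖e1 n‖ = 1 := by simp [e1]

lemma e0_apply_zero (n : ℕ) : (e0 n) 0 = 1 := by simp [e0]
lemma e0_apply_succ (n : ℕ) (i : Fin (n + 1)) : (e0 n) i.succ = 0 := by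
  simp [e0, Fin.succ_ne_zero]

/-- Orthogonal decomposition of the distance to a point of the first axis. -/
lemma dist_decomp {n : ℕ} (x : E (n + 2)) (c : ℝ) :
    ‖x - c • e0 n‖ ^ 2 = (x 0 - c) ^ 2 + ‖x - (x 0) • e0 n‖ ^ 2 := by
  rw [EuclideanSpace.real_norm_sq_eq, EuclideanSpace.real_norm_sq_eq, Fin.sum_univ_succ,
    Fin.sum_univ_succ (f := fun i => (x - (x 0) • e0 n) i ^ 2)]
  have h1 : ∀ (c : ℝ) (i : Fin (n + 1)), (x - c • e0 n) i.succ = x i.succ := by
    intro c i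
    rw [PiLp.sub_apply, PiLp.smul_apply, e0_apply_succ, smul_zero, sub_zero]
  have h2 : ∀ c : ℝ, (x - c • e0 n) 0 = x 0 - c := by
    intro c
    rw [PiLp.sub_apply, PiLp.smul_apply, e0_apply_zero, smul_eq_mul, mul_one]
  simp_rw [h1, h2]
  ring

/-- The test function. -/
noncomputable def bumps {n : ℕ} (η : E (n + 2) → ℝ) (P : Finset ℤ) (δ : ℝ) (x : E (n + 2)) : ℝ :=
  ∑ p ∈ P, η (δ⁻¹ • (x - (p : ℝ) • e0 n))

lemma dist_diff {n : ℕ} (x : E (n + 2)) (a b : ℝ) :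
    (‖x - b • e0 n‖ - ‖x - a • e0 n‖) * (‖x - b • e0 n‖ + ‖x - a • e0 n‖) =
      (a - b) * (2 * x 0 - (a + b)) := by
  have h1 := dist_decomp x a
  have h2 := dist_decomp x b
  nlinarith

/-- Lower bound near a bisector. -/
lemma max_lower {n : ℕ} {η : E (n + 2) → ℝ} {P : Finset ℤ} {δ ε τ L S : ℝ}
    (hη0 : ∀ z, 0 ≤ η z) (hη1 : ∀ z, ‖z‖ ≤ 1 - ε → η z = 1)
    (hδ : 0 < δ) (hε0 : 0 < ε) (hε1 : ε ≤ 1 / 4) (hτ0 : 0 ≤ τ) (hτ : τ ≤ ε * δ)
    (hL : 49 ≤ L) (hS : 2 ≤ S) {x : E (n + 2)} {a b : ℤ} (ha : a ∈ P) (hb : b ∈ P)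
    (hab : a < b) (hab2 : ((b : ℝ) - a) ≤ 11 * S) (hx : |2 * x 0 - (a + b)| ≤ 2 * τ)
    (hDa1 : (L - 1 / 2) * S ≤ ‖x - (a : ℝ) • e0 n‖) (hDa2 : ‖x - (a : ℝ) • e0 n‖ ≤ (L + 1) * S)
    (hDb1 : (L - 1 / 2) * S ≤ ‖x - (b : ℝ) • e0 n‖) (hDb2 : ‖x - (b : ℝ) • e0 n‖ ≤ (L + 1) * S) :
    ENNReal.ofReal (2 * cp n ((1 - 2 * ε) * δ / ((L + 1) * S))) ≤
      sphMax (n + 2) (bumps η P δ) x := by
  set Da : ℝ := ‖x - (a : ℝ) • e0 n‖ with hDa
  set Db : ℝ := ‖x - (b : ℝ) • e0 n‖ with hDb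
  set r : ℝ := (1 - 2 * ε) * δ / ((L + 1) * S) with hr
  have hSpos : 0 < S := by linarith
  have hL1 : 0 < (L + 1) * S := by nlinarith
  have hDapos : 0 < Da := by nlinarith
  have hDbpos : 0 < Db := by nlinarith
  have hLr : (L + 1) * S * r = (1 - 2 * ε) * δ := by
    rw [hr]; field_simp
  have hr0 : 0 ≤ r := by rw [hr]; apply div_nonneg _ hL1.le; nlinarith
  have habr : (a : ℝ) < b := by exact_mod_cast hab
  -- difference of the two distances
  have hdiff : |Db - Da| ≤ τ := by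
    have h1 := dist_diff x (a : ℝ) (b : ℝ)
    rw [← hDa, ← hDb] at h1
    have h2 : |Db - Da| * (Db + Da) = |(a : ℝ) - b| * |2 * x 0 - (a + b)| := by
      rw [← abs_mul, ← h1, abs_mul, abs_of_pos (by linarith : 0 < Db + Da)]
    have h3 : |(a : ℝ) - b| ≤ 11 * S := by
      rw [abs_sub_comm, abs_of_pos (by linarith)]; exact hab2
    have h4 : |Db - Da| * (Db + Da) ≤ 11 * S * (2 * τ) := by
      rw [h2]
      exact mul_le_mul h3 hx (abs_nonneg _) (by positivity)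
    have h5 : 22 * S ≤ Db + Da := by nlinarith
    have h6 : |Db - Da| * (22 * S) ≤ |Db - Da| * (Db + Da) :=
      mul_le_mul_of_nonneg_left h5 (abs_nonneg _)
    have h7 : |Db - Da| * (22 * S) ≤ τ * (22 * S) := by linarith
    exact le_of_mul_le_mul_right h7 (by positivity)
  unfold sphMax
  refine le_trans ?_ (le_iSup₂ (f := fun (t : ℝ) (_ : 0 < t) => sphAvg (n + 2) (bumps η P δ) x t)
    Da hDapos)
  refine avg_lower (g := fun z => η (δ⁻¹ • (z - (a : ℝ) • e0 n)))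
    (h := fun z => η (δ⁻¹ • (z - (b : ℝ) • e0 n))) (fun z => hη0 _) (fun z => hη0 _) ?_
    (a := (a : ℝ) • e0 n) (b := (b : ℝ) • e0 n) hDapos hDbpos ?_ ?_
  · intro z
    unfold bumps
    have hsub : ({a, b} : Finset ℤ) ⊆ P := by
      intro w hw
      rw [Finset.mem_insert, Finset.mem_singleton] at hw
      rcases hw with rfl | rfl <;> assumption
    refine le_trans (le_of_eq ?_) (Finset.sum_le_sum_of_subset_of_nonneg hsub
      (fun p _ _ => hη0 _))
    rw [Finset.sum_pair hab.ne]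
  · intro y hy
    have h1 := norm_sq_formula (t := Da) hDa hDapos (norm_eq_of_mem_sphere y)
    have h2 : ‖x - Da • (y : E (n + 2)) - (a : ℝ) • e0 n‖ ^ 2 ≤ ((1 - 2 * ε) * δ) ^ 2 := by
      rw [h1, sub_self, zero_pow two_ne_zero, zero_add, ← hLr]
      have h3 : ‖Da⁻¹ • (x - (a : ℝ) • e0 n) - (y : E (n + 2))‖ ^ 2 ≤ r ^ 2 :=
        pow_le_pow_left₀ (norm_nonneg _) hy.le 2
      have h4 : Da * Da ≤ ((L + 1) * S) ^ 2 := by nlinarith
      calc Da * Da * ‖Da⁻¹ • (x - (a : ℝ) • e0 n) - (y : E (n + 2))‖ ^ 2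
          ≤ ((L + 1) * S) ^ 2 * r ^ 2 :=
            mul_le_mul h4 h3 (sq_nonneg _) (sq_nonneg _)
        _ = ((L + 1) * S * r) ^ 2 := by ring
    have h3 : ‖x - Da • (y : E (n + 2)) - (a : ℝ) • e0 n‖ ≤ (1 - 2 * ε) * δ := by
      apply le_of_sq_le_sq _ (by nlinarith)
      exact h2
    rw [hη1]
    rw [norm_smul, norm_inv, Real.norm_eq_abs, abs_of_pos hδ, inv_mul_le_iff₀ hδ]
    nlinarith
  · intro y hy
    have h1 := norm_sq_formula (t := Da) hDb hDbpos (norm_eq_of_mem_sphere y)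
    have h2 : ‖x - Da • (y : E (n + 2)) - (b : ℝ) • e0 n‖ ^ 2 ≤ ((1 - ε) * δ) ^ 2 := by
      rw [h1]
      have h3 : ‖Db⁻¹ • (x - (b : ℝ) • e0 n) - (y : E (n + 2))‖ ^ 2 ≤ r ^ 2 :=
        pow_le_pow_left₀ (norm_nonneg _) hy.le 2
      have h4 : Db * Da ≤ ((L + 1) * S) ^ 2 := by nlinarith
      have h5 : Db * Da * ‖Db⁻¹ • (x - (b : ℝ) • e0 n) - (y : E (n + 2))‖ ^ 2
          ≤ ((1 - 2 * ε) * δ) ^ 2 := by
        calc _ ≤ ((L + 1) * S) ^ 2 * r ^ 2 :=
              mul_le_mul h4 h3 (sq_nonneg _) (sq_nonneg _)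
          _ = ((L + 1) * S * r) ^ 2 := by ring
          _ = _ := by rw [hLr]
      have h6 : (Db - Da) ^ 2 ≤ (ε * δ) ^ 2 := by
        rw [← sq_abs (Db - Da)]
        exact pow_le_pow_left₀ (abs_nonneg _) (le_trans hdiff hτ) 2
      have h7 : (ε * δ) ^ 2 + ((1 - 2 * ε) * δ) ^ 2 ≤ ((1 - ε) * δ) ^ 2 := by
        have h8 : ((1 - ε) * δ) ^ 2 - ((ε * δ) ^ 2 + ((1 - 2 * ε) * δ) ^ 2) =
            δ ^ 2 * (2 * ε - 4 * ε ^ 2) := by ring
        have h9 : 0 ≤ δ ^ 2 * (2 * ε - 4 * ε ^ 2) := by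
          apply mul_nonneg (sq_nonneg _)
          nlinarith
        linarith
      linarith
    have h3 : ‖x - Da • (y : E (n + 2)) - (b : ℝ) • e0 n‖ ≤ (1 - ε) * δ := by
      apply le_of_sq_le_sq _ (by nlinarith)
      exact h2
    rw [hη1]
    rw [norm_smul, norm_inv, Real.norm_eq_abs, abs_of_pos hδ, inv_mul_le_iff₀ hδ]
    linarith

/-- Upper bound away from the bisectors. -/
lemma max_upper {n : ℕ} {η : E (n + 2) → ℝ} {P : Finset ℤ} {δ L S : ℝ}
    (hηb : ∀ z, |η z| ≤ 1) (hη1 : ∀ z, 1 ≤ ‖z‖ → η z = 0)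
    (hδ : 0 < δ) (hδ1 : 2 * δ ≤ 1 / (L + 1)) (hδ2 : δ ≤ 1)
    (hL : 49 ≤ L) (hS : 2 ≤ S) {x : E (n + 2)}
    (hD1 : ∀ p ∈ P, (L - 1 / 2) * S ≤ ‖x - (p : ℝ) • e0 n‖)
    (hD2 : ∀ p ∈ P, ‖x - (p : ℝ) • e0 n‖ ≤ (L + 1) * S)
    (hsep : ∀ p ∈ P, ∀ q ∈ P, p ≠ q → 2 * S ≤ |(p : ℝ) - q| * |2 * x 0 - (p + q)|) :
    sphMax (n + 2) (bumps η P δ) x ≤ ENNReal.ofReal (cp n (δ / ((L - 1) * S))) := by
  have hSpos : 0 < S := by linarith
  have hLS : 0 < (L - 1) * S := by nlinarith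
  -- separation of the distances
  have hDsep : ∀ p ∈ P, ∀ q ∈ P, p ≠ q →
      2 * δ ≤ |‖x - (q : ℝ) • e0 n‖ - ‖x - (p : ℝ) • e0 n‖| := by
    intro p hp q hq hpq
    have h1 := dist_diff x (p : ℝ) (q : ℝ)
    set Dp := ‖x - (p : ℝ) • e0 n‖ with hDp
    set Dq := ‖x - (q : ℝ) • e0 n‖ with hDq
    have hp1 := hD1 p hp
    have hp2 := hD2 p hp
    have hq1 := hD1 q hq
    have hq2 := hD2 q hq
    rw [← hDp] at hp1 hp2
    rw [← hDq] at hq1 hq2
    have hsum : 0 < Dq + Dp := by nlinarith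
    have h2 : |Dq - Dp| * (Dq + Dp) = |(p : ℝ) - q| * |2 * x 0 - (p + q)| := by
      rw [← abs_mul, ← h1, abs_mul, abs_of_pos hsum]
    have h3 := hsep p hp q hq hpq
    rw [← h2] at h3
    have h4 : |Dq - Dp| * (Dq + Dp) ≤ |Dq - Dp| * (2 * ((L + 1) * S)) :=
      mul_le_mul_of_nonneg_left (by linarith) (abs_nonneg _)
    have h5 : 1 / (L + 1) ≤ |Dq - Dp| := by
      rw [div_le_iff₀ (by linarith)]
      have h6 : S * 1 ≤ S * (|Dq - Dp| * (L + 1)) := by nlinarith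
      exact le_of_mul_le_mul_left h6 hSpos
    linarith
  -- a bump vanishes if the radius is far from its distance
  have hzero : ∀ p ∈ P, ∀ t : ℝ, 0 < t → δ ≤ |‖x - (p : ℝ) • e0 n‖ - t| →
      ∀ y : sphere (0 : E (n + 2)) 1,
        η (δ⁻¹ • (x - t • (y : E (n + 2)) - (p : ℝ) • e0 n)) = 0 := by
    intro p hp t ht hfar y
    have hpos : 0 < ‖x - (p : ℝ) • e0 n‖ := by
      have := hD1 p hp
      nlinarith
    apply hη1
    rw [norm_smul, norm_inv, Real.norm_eq_abs, abs_of_pos hδ, ← div_eq_inv_mul, le_div_iff₀ hδ,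
      one_mul]
    apply le_of_sq_le_sq _ (norm_nonneg _)
    rw [norm_sq_formula (t := t) rfl hpos (norm_eq_of_mem_sphere y)]
    have h1 : δ ^ 2 ≤ (‖x - (p : ℝ) • e0 n‖ - t) ^ 2 := by
      rw [← sq_abs (‖x - (p : ℝ) • e0 n‖ - t)]
      exact pow_le_pow_left₀ hδ.le hfar 2
    have h2 : 0 ≤ ‖x - (p : ℝ) • e0 n‖ * t *
        ‖(‖x - (p : ℝ) • e0 n‖)⁻¹ • (x - (p : ℝ) • e0 n) - (y : E (n + 2))‖ ^ 2 := by positivity
    linarith
  unfold sphMax
  apply iSup₂_le
  intro t ht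
  by_cases hcase : ∃ p ∈ P, |‖x - (p : ℝ) • e0 n‖ - t| < δ
  · obtain ⟨p, hp, hpt⟩ := hcase
    have hpos : 0 < ‖x - (p : ℝ) • e0 n‖ := by
      have := hD1 p hp
      nlinarith
    have hval : ∀ y : sphere (0 : E (n + 2)) 1, bumps η P δ (x - t • (y : E (n + 2))) =
        η (δ⁻¹ • (x - t • (y : E (n + 2)) - (p : ℝ) • e0 n)) := by
      intro y
      unfold bumps
      apply Finset.sum_eq_single_of_mem p hp
      intro q hq hqp
      apply hzero q hq t ht _ y
      have h1 := hDsep p hp q hq (Ne.symm hqp)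
      have h2 : |‖x - (q : ℝ) • e0 n‖ - ‖x - (p : ℝ) • e0 n‖| ≤
          |‖x - (q : ℝ) • e0 n‖ - t| + |‖x - (p : ℝ) • e0 n‖ - t| := by
        rw [abs_sub_comm (‖x - (p : ℝ) • e0 n‖) t]
        exact abs_sub_le _ _ _
      linarith
    apply avg_upper (a := (p : ℝ) • e0 n) (ha := hpos)
    · intro y
      rw [hval y]
      exact hηb _
    · intro y hy
      rw [hval y]
      apply hη1
      rw [norm_smul, norm_inv, Real.norm_eq_abs, abs_of_pos hδ, ← div_eq_inv_mul, le_div_iff₀ hδ,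
        one_mul]
      apply le_of_sq_le_sq _ (norm_nonneg _)
      rw [norm_sq_formula (t := t) rfl hpos (norm_eq_of_mem_sphere y)]
      have hp1 := hD1 p hp
      rw [abs_lt] at hpt
      have ht1 : (L - 1) * S ≤ t := by nlinarith [hpt.1, hpt.2]
      have hp3 : (L - 1) * S ≤ ‖x - (p : ℝ) • e0 n‖ := by nlinarith
      have h1 : (δ / ((L - 1) * S)) ^ 2 ≤
          ‖(‖x - (p : ℝ) • e0 n‖)⁻¹ • (x - (p : ℝ) • e0 n) - (y : E (n + 2))‖ ^ 2 :=
        pow_le_pow_left₀ (by positivity) hy 2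
      have h2 : ((L - 1) * S) ^ 2 ≤ ‖x - (p : ℝ) • e0 n‖ * t := by
        rw [sq]
        exact mul_le_mul hp3 ht1 hLS.le (norm_nonneg _)
      have h3 : δ ^ 2 = ((L - 1) * S) ^ 2 * (δ / ((L - 1) * S)) ^ 2 := by
        have key : ∀ w : ℝ, 0 < w → δ ^ 2 = w ^ 2 * (δ / w) ^ 2 := by
          intro w hw; field_simp
        exact key _ hLS
      have h4 : ((L - 1) * S) ^ 2 * (δ / ((L - 1) * S)) ^ 2 ≤ ‖x - (p : ℝ) • e0 n‖ * t *
          ‖(‖x - (p : ℝ) • e0 n‖)⁻¹ • (x - (p : ℝ) • e0 n) - (y : E (n + 2))‖ ^ 2 :=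
        mul_le_mul h2 h1 (sq_nonneg _) (by positivity)
      nlinarith [sq_nonneg (‖x - (p : ℝ) • e0 n‖ - t)]
  · push Not at hcase
    have hval : ∀ y : sphere (0 : E (n + 2)) 1, bumps η P δ (x - t • (y : E (n + 2))) = 0 := by
      intro y
      unfold bumps
      apply Finset.sum_eq_zero
      intro p hp
      exact hzero p hp t ht (hcase p hp) y
    have : sphAvg (n + 2) (bumps η P δ) x t = 0 := by
      unfold sphAvg
      simp_rw [hval, enorm_zero]
      exact lintegral_zero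
    rw [this]
    exact zero_le

/-- The maximal function of the test function is at most one. -/
lemma max_le_one {n : ℕ} {f : E (n + 2) → ℝ} (hf : ∀ z, |f z| ≤ 1) (x : E (n + 2)) :
    sphMax (n + 2) f x ≤ 1 := by
  unfold sphMax
  apply iSup₂_le
  intro t ht
  unfold sphAvg
  have := isProb (d := n + 2) (by omega)
  calc ∫⁻ y : sphere (0 : E (n + 2)) 1, ‖f (x - t • (y : E (n + 2)))‖ₑ ∂(sphereMeasure (n + 2))
      ≤ ∫⁻ y : sphere (0 : E (n + 2)) 1, 1 ∂(sphereMeasure (n + 2)) := by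
        apply lintegral_mono
        intro y
        show ‖f (x - t • (y : E (n + 2)))‖ₑ ≤ 1
        rw [Real.enorm_eq_ofReal_abs, ← ENNReal.ofReal_one]
        exact ENNReal.ofReal_le_ofReal (hf _)
    _ = 1 := by rw [lintegral_const, measure_univ, mul_one]

/-- `G` is a weak gradient of `u`: both are locally integrable and the integration by parts
formula holds for all smooth compactly supported test functions and all directions. -/
def HasWeakGrad {d : ℕ} (u : E d → ℝ) (G : E d → E d) : Prop :=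
  LocallyIntegrable u ∧ LocallyIntegrable G ∧
    ∀ φ : E d → ℝ, ContDiff ℝ ∞ φ → HasCompactSupport φ → ∀ v : E d,
      ∫ x, u x * fderiv ℝ φ x v = - ∫ x, inner ℝ (G x) v * φ x

/-! ### One-dimensional profile -/

/-- Antiderivative of the bump `θ`. -/
noncomputable def antider (θ : ContDiffBump (0 : ℝ)) (s : ℝ) : ℝ := ∫ v in (0 : ℝ)..s, θ v

lemma hasDerivAt_antider (θ : ContDiffBump (0 : ℝ)) (s : ℝ) : HasDerivAt (antider θ) (θ s) s :=
  (θ.continuous.integral_hasStrictDerivAt 0 s).hasDerivAt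

lemma contDiff_antider (θ : ContDiffBump (0 : ℝ)) : ContDiff ℝ ∞ (antider θ) := by
  rw [contDiff_infty_iff_deriv]
  refine ⟨fun s => (hasDerivAt_antider θ s).differentiableAt, ?_⟩
  have : deriv (antider θ) = θ := by
    ext s
    exact (hasDerivAt_antider θ s).deriv
  rw [this]
  exact θ.contDiff

/-- The profile. -/
noncomputable def prof (θ : ContDiffBump (0 : ℝ)) (s : ℝ) : ℝ := antider θ s - antider θ (s - 1 / 4)

lemma contDiff_prof (θ : ContDiffBump (0 : ℝ)) : ContDiff ℝ ∞ (prof θ) := by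
  unfold prof
  exact (contDiff_antider θ).sub ((contDiff_antider θ).comp (contDiff_id.sub contDiff_const))

lemma hasDerivAt_prof (θ : ContDiffBump (0 : ℝ)) (s : ℝ) :
    HasDerivAt (prof θ) (θ s - θ (s - 1 / 4)) s := by
  unfold prof
  apply (hasDerivAt_antider θ s).sub
  exact HasDerivAt.comp_sub_const s (1 / 4) (hasDerivAt_antider θ (s - 1 / 4))

lemma prof_eq (θ : ContDiffBump (0 : ℝ)) (s : ℝ) : prof θ s = ∫ v in (s - 1 / 4)..s, θ v := by
  unfold prof antider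
  rw [intervalIntegral.integral_interval_sub_left]
  · exact θ.continuous.intervalIntegrable _ _
  · exact θ.continuous.intervalIntegrable _ _

lemma prof_nonneg (θ : ContDiffBump (0 : ℝ)) (s : ℝ) : 0 ≤ prof θ s := by
  rw [prof_eq]
  exact intervalIntegral.integral_nonneg (by linarith) (fun v _ => θ.nonneg)

lemma prof_le (θ : ContDiffBump (0 : ℝ)) (s : ℝ) : prof θ s ≤ 1 := by
  rw [prof_eq]
  calc ∫ v in (s - 1 / 4)..s, θ v ≤ ∫ v in (s - 1 / 4)..s, (1 : ℝ) := by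
        apply intervalIntegral.integral_mono_on (by linarith)
          (θ.continuous.intervalIntegrable _ _) (continuous_const.intervalIntegrable _ _)
        intro v _
        exact θ.le_one
    _ = 1 / 4 := by rw [intervalIntegral.integral_const]; simp
    _ ≤ 1 := by norm_num

lemma bump_zero (θ : ContDiffBump (0 : ℝ)) {v : ℝ} (h : θ.rOut ≤ |v|) : θ v = 0 := by
  apply θ.zero_of_le_dist
  rw [dist_zero_right, Real.norm_eq_abs]
  exact h

lemma prof_zero_left (θ : ContDiffBump (0 : ℝ)) {s : ℝ} (h : s ≤ -θ.rOut) : prof θ s = 0 := by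
  rw [prof_eq]
  have h1 : ∫ v in (s - 1 / 4)..s, θ v = ∫ v in (s - 1 / 4)..s, (0 : ℝ) := by
    apply intervalIntegral.integral_congr
    intro v hv
    rw [uIcc_of_le (by linarith)] at hv
    apply bump_zero
    have := θ.rOut_pos
    rw [abs_of_nonpos (by linarith [hv.2])]
    linarith [hv.2]
  rw [h1, intervalIntegral.integral_zero]

lemma prof_zero_right (θ : ContDiffBump (0 : ℝ)) {s : ℝ} (h : 1 / 4 + θ.rOut ≤ s) :
    prof θ s = 0 := by
  rw [prof_eq]
  have h1 : ∫ v in (s - 1 / 4)..s, θ v = ∫ v in (s - 1 / 4)..s, (0 : ℝ) := by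
    apply intervalIntegral.integral_congr
    intro v hv
    rw [uIcc_of_le (by linarith)] at hv
    apply bump_zero
    have := θ.rOut_pos
    rw [abs_of_nonneg (by linarith [hv.1])]
    linarith [hv.1]
  rw [h1, intervalIntegral.integral_zero]

lemma prof_support (θ : ContDiffBump (0 : ℝ)) {s : ℝ} (h : prof θ s ≠ 0) :
    -θ.rOut < s ∧ s < 1 / 4 + θ.rOut := by
  constructor
  · by_contra hcon
    push Not at hcon
    exact h (prof_zero_left θ hcon)
  · by_contra hcon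
    push Not at hcon
    exact h (prof_zero_right θ hcon)

lemma sum_le_of_unique {ι : Type*} (Q : Finset ι) (y : ι → ℝ) {M : ℝ} (hM : 0 ≤ M)
    (h1 : ∀ q ∈ Q, y q ≤ M) (h3 : ∀ q ∈ Q, ∀ q' ∈ Q, y q ≠ 0 → y q' ≠ 0 → q = q') :
    ∑ q ∈ Q, y q ≤ M := by
  classical
  by_cases h : ∃ q ∈ Q, y q ≠ 0
  · obtain ⟨q, hq, hy⟩ := h
    rw [Finset.sum_eq_single_of_mem q hq]
    · exact h1 q hq
    · intro q' hq' hne
      by_contra hcon
      exact hne (h3 q' hq' q hq hcon hy)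
  · push Not at h
    rw [Finset.sum_eq_zero h]
    exact hM

/-- the sum of the profiles at spacing `1/2` -/
lemma sum_prof_le (θ : ContDiffBump (0 : ℝ)) (hθ : θ.rOut ≤ 1 / 8) (c : ℝ) (K : ℕ) (s : ℝ) :
    ∑ k ∈ Finset.range K, prof θ (s - (c + k / 2)) ≤ 1 := by
  apply sum_le_of_unique _ _ one_pos.le
  · intro k _
    exact prof_le θ _
  · intro k _ l _ hk hl
    have h1 := prof_support θ hk
    have h2 := prof_support θ hl
    have h3 : (-1 : ℝ) < ((k : ℤ) - (l : ℤ) : ℤ) := by push_cast; linarith [h1.1, h1.2, h2.1, h2.2]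
    have h4 : (((k : ℤ) - (l : ℤ) : ℤ) : ℝ) < 1 := by push_cast; linarith [h1.1, h1.2, h2.1, h2.2]
    have h5 : (-1 : ℤ) < (k : ℤ) - (l : ℤ) := by exact_mod_cast h3
    have h6 : (k : ℤ) - (l : ℤ) < 1 := by exact_mod_cast h4
    omega

/-! ### The test function in space -/

/-- the projection killing the first coordinate -/
noncomputable def proj {n : ℕ} (x : E (n + 2)) : E (n + 2) := x - (x 0) • e0 n

lemma contDiff_coord (n : ℕ) : ContDiff ℝ ∞ (fun x : E (n + 2) => x 0) :=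
  (EuclideanSpace.proj (𝕜 := ℝ) (0 : Fin (n + 2))).contDiff

lemma contDiff_proj (n : ℕ) : ContDiff ℝ ∞ (proj : E (n + 2) → E (n + 2)) := by
  unfold proj
  exact contDiff_id.sub ((contDiff_coord n).smul contDiff_const)

lemma coord_add {n : ℕ} (x : E (n + 2)) (s : ℝ) : (x + s • e0 n) 0 = x 0 + s := by
  rw [PiLp.add_apply, PiLp.smul_apply, e0_apply_zero, smul_eq_mul, mul_one]

lemma proj_add {n : ℕ} (x : E (n + 2)) (s : ℝ) : proj (x + s • e0 n) = proj x := by
  unfold proj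
  rw [coord_add, add_smul]
  abel

/-- The test function `Ψ`. -/
noncomputable def testF {n : ℕ} (θ : ContDiffBump (0 : ℝ)) {w : E (n + 2)} (β : ContDiffBump w)
    (c : ℝ) (K : ℕ) (x : E (n + 2)) : ℝ :=
  (∑ k ∈ Finset.range K, prof θ (x 0 - (c + k / 2))) * β (proj x)

lemma contDiff_testF {n : ℕ} (θ : ContDiffBump (0 : ℝ)) {w : E (n + 2)} (β : ContDiffBump w)
    (c : ℝ) (K : ℕ) : ContDiff ℝ ∞ (testF θ β c K) := by
  unfold testF
  apply ContDiff.mul
  · apply ContDiff.sum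
    intro k _
    exact (contDiff_prof θ).comp ((contDiff_coord n).sub contDiff_const)
  · exact β.contDiff.comp (contDiff_proj n)

lemma fderiv_testF {n : ℕ} (θ : ContDiffBump (0 : ℝ)) {w : E (n + 2)} (β : ContDiffBump w)
    (c : ℝ) (K : ℕ) (x : E (n + 2)) :
    fderiv ℝ (testF θ β c K) x (e0 n) =
      ∑ k ∈ Finset.range K, (θ (x 0 - (c + k / 2)) - θ (x 0 - 1 / 4 - (c + k / 2))) *
        β (proj x) := by
  have hd : DifferentiableAt ℝ (testF θ β c K) x :=
    (contDiff_testF θ β c K).differentiable (by simp) x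
  rw [← hd.lineDeriv_eq_fderiv, lineDeriv]
  have e : (fun t : ℝ => testF θ β c K (x + t • e0 n)) =
      fun t : ℝ => (∑ k ∈ Finset.range K, prof θ (x 0 + t - (c + k / 2))) * β (proj x) := by
    ext t
    unfold testF
    rw [coord_add, proj_add]
  rw [e]
  have h1 : ∀ k : ℕ, HasDerivAt (fun t : ℝ => prof θ (x 0 + t - (c + k / 2)))
      (θ (x 0 - (c + k / 2)) - θ (x 0 - 1 / 4 - (c + k / 2))) 0 := by
    intro k
    have h2 : HasDerivAt (prof θ) (θ (x 0 - (c + k / 2)) - θ (x 0 - 1 / 4 - (c + k / 2)))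
        (x 0 + 0 - (c + k / 2)) := by
      have h3 := hasDerivAt_prof θ (x 0 - (c + k / 2))
      have e2 : x 0 - (c + (k : ℝ) / 2) - 1 / 4 = x 0 - 1 / 4 - (c + k / 2) := by ring
      rw [e2] at h3
      rw [add_zero]
      exact h3
    have h4 : HasDerivAt (fun t : ℝ => x 0 + t - (c + (k : ℝ) / 2)) 1 0 := by
      exact ((hasDerivAt_id (0 : ℝ)).const_add (x 0)).sub_const _
    have h5 := h2.comp (0 : ℝ) h4
    rw [mul_one] at h5
    exact h5
  have h6 : HasDerivAt (fun t : ℝ => (∑ k ∈ Finset.range K, prof θ (x 0 + t - (c + k / 2))) *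
      β (proj x))
      ((∑ k ∈ Finset.range K, (θ (x 0 - (c + k / 2)) - θ (x 0 - 1 / 4 - (c + k / 2)))) *
        β (proj x)) 0 := by
    apply HasDerivAt.mul_const
    exact HasDerivAt.fun_sum (fun k _ => h1 k)
  rw [h6.deriv, Finset.sum_mul]

lemma testF_nonneg {n : ℕ} (θ : ContDiffBump (0 : ℝ)) {w : E (n + 2)} (β : ContDiffBump w)
    (c : ℝ) (K : ℕ) (x : E (n + 2)) : 0 ≤ testF θ β c K x :=
  mul_nonneg (Finset.sum_nonneg (fun _ _ => prof_nonneg θ _)) β.nonneg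

lemma testF_le_one {n : ℕ} (θ : ContDiffBump (0 : ℝ)) (hθ : θ.rOut ≤ 1 / 8) {w : E (n + 2)}
    (β : ContDiffBump w) (c : ℝ) (K : ℕ) (x : E (n + 2)) : testF θ β c K x ≤ 1 := by
  unfold testF
  calc _ ≤ 1 * (1 : ℝ) := by
        apply mul_le_mul (sum_prof_le θ hθ c K _) β.le_one β.nonneg one_pos.le
    _ = 1 := one_mul 1

lemma norm_le_of_coord {n : ℕ} (x : E (n + 2)) : ‖x‖ ≤ |x 0| + ‖proj x‖ := by
  have : x = (x 0) • e0 n + proj x := by unfold proj; abel
  calc ‖x‖ = ‖(x 0) • e0 n + proj x‖ := by rw [← this]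
    _ ≤ ‖(x 0) • e0 n‖ + ‖proj x‖ := norm_add_le _ _
    _ = |x 0| + ‖proj x‖ := by rw [norm_smul, norm_e0, mul_one, Real.norm_eq_abs]

/-- The support of the test function. -/
lemma testF_support {n : ℕ} (θ : ContDiffBump (0 : ℝ)) (hθ : θ.rOut ≤ 1 / 8) {w : E (n + 2)}
    (β : ContDiffBump w) {c : ℝ} (hc : 0 ≤ c) (K : ℕ) {x : E (n + 2)}
    (hx : testF θ β c K x ≠ 0) : ‖x‖ ≤ c + K / 2 + 1 + (‖w‖ + β.rOut) := by
  unfold testF at hx
  have h1 := left_ne_zero_of_mul hx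
  have h2 := right_ne_zero_of_mul hx
  obtain ⟨k, hk, hk'⟩ := Finset.exists_ne_zero_of_sum_ne_zero h1
  have h3 := prof_support θ hk'
  rw [Finset.mem_range] at hk
  have hkK : (k : ℝ) ≤ K := by exact_mod_cast hk.le
  have hk0 : (0 : ℝ) ≤ k := Nat.cast_nonneg k
  have h4 : |x 0| ≤ c + K / 2 + 1 := by
    rw [abs_le]
    constructor <;> linarith [h3.1, h3.2]
  have h5 : ‖proj x‖ ≤ ‖w‖ + β.rOut := by
    have h6 : proj x ∈ ball w β.rOut := by
      rw [← β.support_eq]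
      exact h2
    rw [mem_ball, dist_eq_norm] at h6
    calc ‖proj x‖ = ‖w + (proj x - w)‖ := by congr 1; abel
      _ ≤ ‖w‖ + ‖proj x - w‖ := norm_add_le _ _
      _ ≤ _ := by linarith
  linarith [norm_le_of_coord x]

lemma testF_compact {n : ℕ} (θ : ContDiffBump (0 : ℝ)) (hθ : θ.rOut ≤ 1 / 8) {w : E (n + 2)}
    (β : ContDiffBump w) {c : ℝ} (hc : 0 ≤ c) (K : ℕ) : HasCompactSupport (testF θ β c K) := by
  apply HasCompactSupport.intro (isCompact_closedBall (0 : E (n + 2))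
    (c + K / 2 + 1 + (‖w‖ + β.rOut)))
  intro x hx
  by_contra hcon
  apply hx
  rw [mem_closedBall_zero_iff]
  exact testF_support θ hθ β hc K hcon

/-- the weight of one strip -/
noncomputable def strip {n : ℕ} (θ : ContDiffBump (0 : ℝ)) {w : E (n + 2)} (β : ContDiffBump w)
    (m : ℝ) (x : E (n + 2)) : ℝ := θ (x 0 - m) * β (proj x)

lemma strip_nonneg {n : ℕ} (θ : ContDiffBump (0 : ℝ)) {w : E (n + 2)} (β : ContDiffBump w)
    (m : ℝ) (x : E (n + 2)) : 0 ≤ strip θ β m x := mul_nonneg θ.nonneg β.nonneg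

lemma strip_continuous {n : ℕ} (θ : ContDiffBump (0 : ℝ)) {w : E (n + 2)} (β : ContDiffBump w)
    (m : ℝ) : Continuous (strip θ β m) := by
  unfold strip
  have h1 : Continuous (fun x : E (n + 2) => x 0) := (contDiff_coord n).continuous
  have h2 : Continuous (proj : E (n + 2) → E (n + 2)) := (contDiff_proj n).continuous
  exact (θ.continuous.comp (h1.sub continuous_const)).mul (β.continuous.comp h2)

lemma strip_support {n : ℕ} (θ : ContDiffBump (0 : ℝ)) {w : E (n + 2)} (β : ContDiffBump w)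
    {m : ℝ} {x : E (n + 2)} (hx : strip θ β m x ≠ 0) :
    |x 0 - m| < θ.rOut ∧ ‖proj x - w‖ < β.rOut := by
  unfold strip at hx
  have h1 := left_ne_zero_of_mul hx
  have h2 := right_ne_zero_of_mul hx
  constructor
  · have h3 : x 0 - m ∈ ball (0 : ℝ) θ.rOut := by rw [← θ.support_eq]; exact h1
    rwa [mem_ball, dist_zero_right, Real.norm_eq_abs] at h3
  · have h3 : proj x ∈ ball w β.rOut := by rw [← β.support_eq]; exact h2
    rwa [mem_ball, dist_eq_norm] at h3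

lemma strip_compact {n : ℕ} (θ : ContDiffBump (0 : ℝ)) {w : E (n + 2)} (β : ContDiffBump w)
    (m : ℝ) : HasCompactSupport (strip θ β m) := by
  apply HasCompactSupport.intro (isCompact_closedBall (0 : E (n + 2))
    ((|m| + θ.rOut) + (‖w‖ + β.rOut)))
  intro x hx
  by_contra hcon
  apply hx
  obtain ⟨h1, h2⟩ := strip_support θ β hcon
  rw [mem_closedBall_zero_iff]
  have h3 : |x 0| ≤ |m| + θ.rOut := by
    calc |x 0| = |m + (x 0 - m)| := by congr 1; ring
      _ ≤ |m| + |x 0 - m| := abs_add_le _ _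
      _ ≤ _ := by linarith
  have h4 : ‖proj x‖ ≤ ‖w‖ + β.rOut := by
    calc ‖proj x‖ = ‖w + (proj x - w)‖ := by congr 1; abel
      _ ≤ ‖w‖ + ‖proj x - w‖ := norm_add_le _ _
      _ ≤ _ := by linarith
  linarith [norm_le_of_coord x]

lemma strip_shift {n : ℕ} (θ : ContDiffBump (0 : ℝ)) {w : E (n + 2)} (β : ContDiffBump w)
    (m : ℝ) (x : E (n + 2)) :
    strip θ β m x = θ ((x + (1 / 4 : ℝ) • e0 n) 0 - 1 / 4 - m) * β (proj (x + (1 / 4 : ℝ) • e0 n)) := by
  unfold strip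
  rw [proj_add, coord_add]
  congr 2
  ring

/-- The key lower bound: integrating a function which drops by `γ` when one moves by `e0/4`. -/
lemma integral_lower {n : ℕ} {u : E (n + 2) → ℝ} (hu : LocallyIntegrable u)
    (θ : ContDiffBump (0 : ℝ)) {w : E (n + 2)} (β : ContDiffBump w) (c : ℝ) (K : ℕ) {γ : ℝ}
    (hγ : ∀ k : ℕ, k < K → ∀ x : E (n + 2), |x 0 - (c + k / 2)| < θ.rOut → ‖proj x - w‖ < β.rOut →
      γ ≤ u x - u (x + (1 / 4 : ℝ) • e0 n)) :
    γ * ∑ k ∈ Finset.range K, ∫ x, strip θ β (c + k / 2) x ≤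
      ∫ x, u x * fderiv ℝ (testF θ β c K) x (e0 n) := by
  have hint1 : ∀ m : ℝ, Integrable (fun x => u x * strip θ β m x) := by
    intro m
    exact hu.integrable_smul_right_of_hasCompactSupport (strip_continuous θ β m)
      (strip_compact θ β m)
  have hint2 : ∀ m : ℝ, Integrable (fun x => u x *
      (θ (x 0 - 1 / 4 - m) * β (proj x))) := by
    intro m
    have e : (fun x : E (n + 2) => u x * (θ (x 0 - 1 / 4 - m) * β (proj x))) =
        fun x => u x * strip θ β (m + 1 / 4) x := by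
      ext x
      unfold strip
      congr 3
      ring
    rw [e]
    exact hint1 _
  have hint3 : ∀ m : ℝ, Integrable (fun x => u (x + (1 / 4 : ℝ) • e0 n) * strip θ β m x) := by
    intro m
    have h1 := (hint2 m).comp_add_right ((1 / 4 : ℝ) • e0 n)
    refine h1.congr (Filter.Eventually.of_forall (fun x => ?_))
    show u (x + (1 / 4 : ℝ) • e0 n) * (θ ((x + (1 / 4 : ℝ) • e0 n) 0 - 1 / 4 - m) *
      β (proj (x + (1 / 4 : ℝ) • e0 n))) = u (x + (1 / 4 : ℝ) • e0 n) * strip θ β m x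
    rw [strip_shift]
  have hstrip : ∀ m : ℝ, Integrable (strip θ β m) := fun m =>
    (strip_continuous θ β m).integrable_of_hasCompactSupport (strip_compact θ β m)
  have hrw : ∫ x, u x * fderiv ℝ (testF θ β c K) x (e0 n) =
      ∑ k ∈ Finset.range K, ∫ x, (u x - u (x + (1 / 4 : ℝ) • e0 n)) * strip θ β (c + k / 2) x := by
    have e1 : ∀ x, u x * fderiv ℝ (testF θ β c K) x (e0 n) =
        ∑ k ∈ Finset.range K, (u x * strip θ β (c + k / 2) x -
          u x * (θ (x 0 - 1 / 4 - (c + k / 2)) * β (proj x))) := by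
      intro x
      rw [fderiv_testF, Finset.mul_sum]
      apply Finset.sum_congr rfl
      intro k _
      unfold strip
      ring
    simp_rw [e1]
    rw [integral_finsetSum]
    swap
    · intro k _
      exact (hint1 (c + k / 2)).sub (hint2 (c + k / 2))
    apply Finset.sum_congr rfl
    intro k _
    rw [integral_sub (hint1 (c + k / 2)) (hint2 (c + k / 2))]
    have e2 : ∫ x, u x * (θ (x 0 - 1 / 4 - (c + k / 2)) * β (proj x)) =
        ∫ x, u (x + (1 / 4 : ℝ) • e0 n) * strip θ β (c + k / 2) x := by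
      rw [← integral_add_right_eq_self (fun x : E (n + 2) => u x *
        (θ (x 0 - 1 / 4 - (c + k / 2)) * β (proj x))) ((1 / 4 : ℝ) • e0 n)]
      congr 1
      ext x
      rw [strip_shift]
    rw [e2, ← integral_sub (hint1 _) (hint3 _)]
    congr 1
    ext x
    ring
  rw [hrw, Finset.mul_sum]
  apply Finset.sum_le_sum
  intro k hk
  rw [Finset.mem_range] at hk
  rw [← integral_const_mul]
  apply integral_mono ((hstrip _).const_mul γ)
  · have h1 := (hint1 (c + k / 2)).sub (hint3 (c + k / 2))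
    refine h1.congr (Filter.Eventually.of_forall (fun x => ?_))
    show u x * strip θ β (c + k / 2) x - u (x + (1 / 4 : ℝ) • e0 n) * strip θ β (c + k / 2) x = _
    ring
  · intro x
    show γ * strip θ β (c + k / 2) x ≤ (u x - u (x + (1 / 4 : ℝ) • e0 n)) * strip θ β (c + k / 2) x
    by_cases hx : strip θ β (c + k / 2) x = 0
    · rw [hx, mul_zero, mul_zero]
    · obtain ⟨h1, h2⟩ := strip_support θ β hx
      exact mul_le_mul_of_nonneg_right (hγ k hk x h1 h2) (strip_nonneg θ β _ x)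

lemma e1_apply_zero (n : ℕ) : (e1 n) 0 = 0 := by simp [e1]
lemma e1_apply_one (n : ℕ) : (e1 n) (Fin.succ 0) = 1 := by
  simp [e1]
lemma e1_apply_succ (n : ℕ) (i : Fin n) : (e1 n) i.succ.succ = 0 := by
  have : i.succ.succ ≠ (1 : Fin (n + 2)) := by
    intro h
    have h2 := congrArg Fin.val h
    simp at h2
  simp [e1, this]

/-- Lower bound for the mass of one strip. -/
lemma strip_integral_lower {n : ℕ} (θ : ContDiffBump (0 : ℝ)) {A : ℝ}
    (β : ContDiffBump (A • e1 n)) (m : ℝ) {ρ : ℝ} (hρ : 0 < ρ)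
    (hβ : ((n : ℝ) + 1) * ρ ^ 2 ≤ β.rIn ^ 2) :
    2 * θ.rIn * (2 * ρ) ^ (n + 1) ≤ ∫ x, strip θ β m x := by
  set B : Set (E (n + 2)) := (@WithLp.ofLp 2 (Fin (n + 2) → ℝ)) ⁻¹'
    (Set.pi univ (Fin.cons (Ioo (m - θ.rIn) (m + θ.rIn))
      (Fin.cons (Ioo (A - ρ) (A + ρ)) (fun _ : Fin n => Ioo (-ρ) ρ)))) with hB
  have hθ := θ.rIn_pos
  have hmeas : MeasurableSet (Set.pi univ (Fin.cons (Ioo (m - θ.rIn) (m + θ.rIn))
      (Fin.cons (Ioo (A - ρ) (A + ρ)) (fun _ : Fin n => Ioo (-ρ) ρ))) : Set (Fin (n + 2) → ℝ)) := by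
    apply MeasurableSet.univ_pi
    intro i
    refine Fin.cases ?_ (fun i => ?_) i
    · rw [Fin.cons_zero]; exact measurableSet_Ioo
    · rw [Fin.cons_succ]
      refine Fin.cases ?_ (fun i => ?_) i
      · rw [Fin.cons_zero]; exact measurableSet_Ioo
      · rw [Fin.cons_succ]; exact measurableSet_Ioo
  have hBvol : volume B = ENNReal.ofReal (2 * θ.rIn * (2 * ρ) ^ (n + 1)) := by
    rw [hB, (PiLp.volume_preserving_ofLp (Fin (n + 2))).measure_preimage hmeas.nullMeasurableSet,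
      volume_pi_pi, Fin.prod_univ_succ, Fin.prod_univ_succ]
    simp only [Fin.cons_zero, Fin.cons_succ, Real.volume_Ioo, Finset.prod_const, Finset.card_univ,
      Fintype.card_fin]
    have a1 : m + θ.rIn - (m - θ.rIn) = 2 * θ.rIn := by ring
    have a2 : A + ρ - (A - ρ) = 2 * ρ := by ring
    have a3 : ρ - -ρ = 2 * ρ := by ring
    rw [a1, a2, a3, ← ENNReal.ofReal_pow (by linarith), ← ENNReal.ofReal_mul (by linarith),
      ← ENNReal.ofReal_mul (by linarith)]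
    congr 1
    ring
  have hBmeas : MeasurableSet B :=
    (PiLp.volume_preserving_ofLp (Fin (n + 2))).measurable hmeas
  have hone : ∀ x ∈ B, strip θ β m x = 1 := by
    intro x hx
    rw [hB, Set.mem_preimage, Set.mem_univ_pi] at hx
    have h0 : x 0 ∈ Ioo (m - θ.rIn) (m + θ.rIn) := by
      have := hx 0
      rwa [Fin.cons_zero] at this
    have h1 : x (Fin.succ 0) ∈ Ioo (A - ρ) (A + ρ) := by
      have := hx (Fin.succ 0)
      rwa [Fin.cons_succ, Fin.cons_zero] at this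
    have h2 : ∀ i : Fin n, x i.succ.succ ∈ Ioo (-ρ) ρ := by
      intro i
      have := hx i.succ.succ
      rwa [Fin.cons_succ, Fin.cons_succ] at this
    unfold strip
    have hθ1 : θ (x 0 - m) = 1 := by
      apply θ.one_of_mem_closedBall
      rw [mem_closedBall, dist_zero_right, Real.norm_eq_abs, abs_le]
      constructor <;> linarith [h0.1, h0.2]
    have hβ1 : β (proj x) = 1 := by
      apply β.one_of_mem_closedBall
      rw [mem_closedBall, dist_eq_norm]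
      apply le_of_sq_le_sq _ β.rIn_pos.le
      refine le_trans ?_ hβ
      rw [EuclideanSpace.real_norm_sq_eq, Fin.sum_univ_succ, Fin.sum_univ_succ]
      have b0 : (proj x - A • e1 n) 0 = 0 := by
        unfold proj
        rw [PiLp.sub_apply, PiLp.sub_apply, PiLp.smul_apply, PiLp.smul_apply, e0_apply_zero,
          e1_apply_zero, smul_eq_mul, smul_eq_mul]
        ring
      have b1 : (proj x - A • e1 n) (Fin.succ 0) = x (Fin.succ 0) - A := by
        unfold proj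
        rw [PiLp.sub_apply, PiLp.sub_apply, PiLp.smul_apply, PiLp.smul_apply, e0_apply_succ,
          e1_apply_one, smul_eq_mul, smul_eq_mul]
        ring
      have b2 : ∀ i : Fin n, (proj x - A • e1 n) i.succ.succ = x i.succ.succ := by
        intro i
        unfold proj
        rw [PiLp.sub_apply, PiLp.sub_apply, PiLp.smul_apply, PiLp.smul_apply, e0_apply_succ,
          e1_apply_succ, smul_eq_mul, smul_eq_mul]
        ring
      simp_rw [b2]
      rw [b0, b1]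
      have c1 : (x (Fin.succ 0) - A) ^ 2 ≤ ρ ^ 2 := by
        apply sq_le_sq' <;> linarith [h1.1, h1.2]
      have c2 : ∑ i : Fin n, (x i.succ.succ) ^ 2 ≤ n * ρ ^ 2 := by
        calc ∑ i : Fin n, (x i.succ.succ) ^ 2 ≤ ∑ i : Fin n, ρ ^ 2 := by
              apply Finset.sum_le_sum
              intro i _
              apply sq_le_sq' <;> linarith [(h2 i).1, (h2 i).2]
          _ = n * ρ ^ 2 := by
              rw [Finset.sum_const, Finset.card_univ, Fintype.card_fin, nsmul_eq_mul]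
      linarith
    rw [hθ1, hβ1, one_mul]
  have hint : Integrable (strip θ β m) :=
    (strip_continuous θ β m).integrable_of_hasCompactSupport (strip_compact θ β m)
  calc 2 * θ.rIn * (2 * ρ) ^ (n + 1) = volume.real B := by
        rw [Measure.real, hBvol, ENNReal.toReal_ofReal (by positivity)]
    _ = ∫ x in B, strip θ β m x := by
        rw [setIntegral_congr_fun hBmeas (g := fun _ => (1 : ℝ)) hone]
        simp
    _ ≤ ∫ x, strip θ β m x :=
        setIntegral_le_integral hint (Filter.Eventually.of_forall (fun x => strip_nonneg θ β m x))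

/-- The upper bound by Holder's inequality. -/
lemma holder_upper {n : ℕ} {p : ℝ} (hp : 1 < p) {G : E (n + 2) → E (n + 2)}
    (hG : LocallyIntegrable G) {Ψ : E (n + 2) → ℝ} (hΨ0 : ∀ x, |Ψ x| ≤ 1) {R : ℝ} (hR : 0 < R)
    (hΨR : ∀ x, Ψ x ≠ 0 → ‖x‖ ≤ R) {v : E (n + 2)} (hv : ‖v‖ = 1) {I : ℝ}
    (hI : I ≤ - ∫ x, inner ℝ (G x) v * Ψ x) :
    ENNReal.ofReal I ≤ eLpNorm G (ENNReal.ofReal p) volume *
      (ENNReal.ofReal (R ^ (n + 2)) * volume (ball (0 : E (n + 2)) 1)) ^ (1 - 1 / p) := by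
  have h1 : ENNReal.ofReal I ≤ ∫⁻ x, ‖inner ℝ (G x) v * Ψ x‖ₑ := by
    calc ENNReal.ofReal I ≤ ENNReal.ofReal |∫ x, inner ℝ (G x) v * Ψ x| := by
          apply ENNReal.ofReal_le_ofReal
          exact le_trans hI (neg_le_abs _)
      _ = ‖∫ x, inner ℝ (G x) v * Ψ x‖ₑ := (Real.enorm_eq_ofReal_abs _).symm
      _ ≤ _ := enorm_integral_le_lintegral_enorm _
  have h2 : ∫⁻ x, ‖inner ℝ (G x) v * Ψ x‖ₑ ≤
      ∫⁻ x in closedBall (0 : E (n + 2)) R, ‖G x‖ₑ := by
    rw [← lintegral_indicator measurableSet_closedBall]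
    apply lintegral_mono
    intro x
    show ‖inner ℝ (G x) v * Ψ x‖ₑ ≤ (closedBall (0 : E (n + 2)) R).indicator (fun x => ‖G x‖ₑ) x
    by_cases hx : Ψ x = 0
    · rw [hx, mul_zero, enorm_zero]; exact zero_le
    · have hmem : x ∈ closedBall (0 : E (n + 2)) R := by
        rw [mem_closedBall_zero_iff]; exact hΨR x hx
      rw [indicator_of_mem hmem, ← ofReal_norm, ← ofReal_norm]
      apply ENNReal.ofReal_le_ofReal
      rw [norm_mul, Real.norm_eq_abs (Ψ x)]
      calc ‖inner ℝ (G x) v‖ * |Ψ x| ≤ (‖G x‖ * ‖v‖) * 1 := by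
            apply mul_le_mul (norm_inner_le_norm _ _) (hΨ0 x) (abs_nonneg _) (by positivity)
        _ = ‖G x‖ := by rw [hv, mul_one, mul_one]
  have h3 : ∫⁻ x in closedBall (0 : E (n + 2)) R, ‖G x‖ₑ =
      eLpNorm G 1 (volume.restrict (closedBall (0 : E (n + 2)) R)) := by
    rw [eLpNorm_one_eq_lintegral_enorm]
  have hvol : volume (closedBall (0 : E (n + 2)) R) =
      ENNReal.ofReal (R ^ (n + 2)) * volume (ball (0 : E (n + 2)) 1) := by
    rw [Measure.addHaar_closedBall _ _ hR.le, finrank_euclideanSpace_fin]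
  have hp1 : (1 : ℝ≥0∞) ≤ ENNReal.ofReal p := by
    rw [← ENNReal.ofReal_one]; exact ENNReal.ofReal_le_ofReal hp.le
  have h4 := eLpNorm_le_eLpNorm_mul_rpow_measure_univ hp1
    (f := G) (μ := volume.restrict (closedBall (0 : E (n + 2)) R))
    (hG.aestronglyMeasurable.restrict)
  rw [Measure.restrict_apply_univ, hvol, ENNReal.toReal_ofReal (by linarith)] at h4
  have e1 : (1 / (1 : ℝ≥0∞).toReal - 1 / p) = 1 - 1 / p := by simp
  rw [e1] at h4
  refine le_trans h1 (le_trans h2 ?_)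
  rw [h3]
  refine le_trans h4 ?_
  gcongr
  exact Measure.restrict_le_self

/-! ### The function `f` -/

section fn

variable {n : ℕ} (η : ContDiffBump (0 : E (n + 2))) (P : Finset ℤ) (δ : ℝ)

lemma contDiff_bumps : ContDiff ℝ ∞ (bumps η P δ) := by
  unfold bumps
  apply ContDiff.sum
  intro p _
  exact η.contDiff.comp ((contDiff_id.sub contDiff_const).const_smul _)

lemma bump_ne_zero {x : E (n + 2)} {c : E (n + 2)} (hδ : 0 < δ) (h1 : η.rOut = 1)
    (h : η (δ⁻¹ • (x - c)) ≠ 0) : ‖x - c‖ < δ := by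
  have h2 : δ⁻¹ • (x - c) ∈ ball (0 : E (n + 2)) η.rOut := by rw [← η.support_eq]; exact h
  rw [mem_ball, dist_zero_right, norm_smul, norm_inv, Real.norm_eq_abs, abs_of_pos hδ, h1,
    inv_mul_lt_iff₀ hδ, mul_one] at h2
  exact h2

lemma fderiv_bump (x c : E (n + 2)) :
    fderiv ℝ (fun z => η (δ⁻¹ • (z - c))) x = δ⁻¹ • fderiv ℝ η (δ⁻¹ • (x - c)) := by
  have h1 : HasFDerivAt η (fderiv ℝ η (δ⁻¹ • (x - c))) (δ⁻¹ • (x - c)) :=
    (η.contDiff.differentiable (by simp : (∞ : WithTop ℕ∞) ≠ 0) _).hasFDerivAt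
  have h2 : HasFDerivAt (fun z : E (n + 2) => δ⁻¹ • (z - c))
      (δ⁻¹ • ContinuousLinearMap.id ℝ (E (n + 2))) x :=
    ((hasFDerivAt_id x).sub_const c).const_smul δ⁻¹
  have h3 := h1.comp x h2
  have h4 : (fderiv ℝ η (δ⁻¹ • (x - c))).comp (δ⁻¹ • ContinuousLinearMap.id ℝ (E (n + 2))) =
      δ⁻¹ • fderiv ℝ η (δ⁻¹ • (x - c)) := by
    ext v
    simp
  rw [h4] at h3
  exact h3.fderiv

lemma fderiv_bump_ne_zero {x c : E (n + 2)} (hδ : 0 < δ) (h1 : η.rOut = 1)
    (h : fderiv ℝ η (δ⁻¹ • (x - c)) ≠ 0) : ‖x - c‖ ≤ δ := by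
  have h2 : δ⁻¹ • (x - c) ∈ tsupport (η : E (n + 2) → ℝ) :=
    support_fderiv_subset ℝ h
  rw [η.tsupport_eq, mem_closedBall, dist_zero_right, norm_smul, norm_inv, Real.norm_eq_abs,
    abs_of_pos hδ, h1, inv_mul_le_iff₀ hδ, mul_one] at h2
  exact h2

lemma int_eq_of_close {x : E (n + 2)} {p q : ℤ} (hδ : δ < 1 / 2)
    (hp : ‖x - (p : ℝ) • e0 n‖ ≤ δ) (hq : ‖x - (q : ℝ) • e0 n‖ ≤ δ) : p = q := by
  have h1 : |(p : ℝ) - q| < 1 := by
    calc |(p : ℝ) - q| = ‖((p : ℝ) - q) • e0 n‖ := by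
          rw [norm_smul, norm_e0, mul_one, Real.norm_eq_abs]
      _ = ‖(x - (q : ℝ) • e0 n) - (x - (p : ℝ) • e0 n)‖ := by
          congr 1
          rw [sub_smul]
          abel
      _ ≤ ‖x - (q : ℝ) • e0 n‖ + ‖x - (p : ℝ) • e0 n‖ := norm_sub_le _ _
      _ < 1 := by linarith
  have h2 : |p - q| < 1 := by exact_mod_cast h1
  have := Int.abs_lt_one_iff.mp h2
  omega

lemma norm_sum_le_of_unique {ι F : Type*} [SeminormedAddCommGroup F] (Q : Finset ι) (y : ι → F)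
    {M : ℝ} (hM : 0 ≤ M) (h1 : ∀ q ∈ Q, ‖y q‖ ≤ M)
    (h3 : ∀ q ∈ Q, ∀ q' ∈ Q, y q ≠ 0 → y q' ≠ 0 → q = q') :
    ‖∑ q ∈ Q, y q‖ ≤ M := by
  classical
  by_cases h : ∃ q ∈ Q, y q ≠ 0
  · obtain ⟨q, hq, hy⟩ := h
    rw [Finset.sum_eq_single_of_mem q hq]
    · exact h1 q hq
    · intro q' hq' hne
      by_contra hcon
      exact hne (h3 q' hq' q hq hcon hy)
  · push Not at h
    rw [Finset.sum_eq_zero h, norm_zero]
    exact hM

lemma bumps_le_one (hδ : 0 < δ) (hδ1 : δ < 1 / 2) (h1 : η.rOut = 1) (x : E (n + 2)) :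
    |bumps η P δ x| ≤ 1 := by
  rw [← Real.norm_eq_abs]
  unfold bumps
  apply norm_sum_le_of_unique _ _ one_pos.le
  · intro p _
    rw [Real.norm_eq_abs, abs_of_nonneg η.nonneg]
    exact η.le_one
  · intro p _ q _ hp hq
    exact int_eq_of_close (x := x) δ hδ1 (bump_ne_zero η δ hδ h1 hp).le
      (bump_ne_zero η δ hδ h1 hq).le

lemma fderiv_bumps (x : E (n + 2)) :
    fderiv ℝ (bumps η P δ) x = ∑ p ∈ P, δ⁻¹ • fderiv ℝ η (δ⁻¹ • (x - (p : ℝ) • e0 n)) := by
  unfold bumps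
  rw [fderiv_fun_sum]
  · apply Finset.sum_congr rfl
    intro p _
    exact fderiv_bump η δ x _
  · intro p _
    have h : ContDiff ℝ ∞ (fun x : E (n + 2) => η (δ⁻¹ • (x - (p : ℝ) • e0 n))) :=
      η.contDiff.comp ((contDiff_id.sub contDiff_const).const_smul _)
    exact h.differentiable (by simp) x

lemma fderiv_bumps_le (hδ : 0 < δ) (hδ1 : δ < 1 / 2) (h1 : η.rOut = 1) {M : ℝ}
    (hM : ∀ z, ‖fderiv ℝ η z‖ ≤ M) (x : E (n + 2)) :
    ‖fderiv ℝ (bumps η P δ) x‖ ≤ δ⁻¹ * M := by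
  rw [fderiv_bumps]
  have hM0 : 0 ≤ M := le_trans (norm_nonneg _) (hM 0)
  apply norm_sum_le_of_unique _ _ (by positivity)
  · intro p _
    rw [norm_smul, norm_inv, Real.norm_eq_abs, abs_of_pos hδ]
    exact mul_le_mul_of_nonneg_left (hM _) (by positivity)
  · intro p _ q _ hp hq
    have hp' := (smul_ne_zero_iff.mp hp).2
    have hq' := (smul_ne_zero_iff.mp hq).2
    exact int_eq_of_close (x := x) δ hδ1 (fderiv_bump_ne_zero η δ hδ h1 hp')
      (fderiv_bump_ne_zero η δ hδ h1 hq')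

/-- the support region -/
def region (n : ℕ) (P : Finset ℤ) (δ : ℝ) : Set (E (n + 2)) :=
  ⋃ p ∈ P, closedBall ((p : ℝ) • e0 n) δ

lemma bumps_region (hδ : 0 < δ) (h1 : η.rOut = 1) {x : E (n + 2)} (hx : x ∉ region n P δ) :
    bumps η P δ x = 0 := by
  unfold bumps
  apply Finset.sum_eq_zero
  intro p hp
  by_contra hcon
  apply hx
  unfold region
  rw [mem_iUnion₂]
  refine ⟨p, hp, ?_⟩
  rw [mem_closedBall, dist_eq_norm]
  exact (bump_ne_zero η δ hδ h1 hcon).le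

lemma fderiv_bumps_region (hδ : 0 < δ) (h1 : η.rOut = 1) {x : E (n + 2)}
    (hx : x ∉ region n P δ) : fderiv ℝ (bumps η P δ) x = 0 := by
  rw [fderiv_bumps]
  apply Finset.sum_eq_zero
  intro p hp
  by_contra hcon
  apply hx
  unfold region
  rw [mem_iUnion₂]
  refine ⟨p, hp, ?_⟩
  rw [mem_closedBall, dist_eq_norm]
  exact fderiv_bump_ne_zero η δ hδ h1 (smul_ne_zero_iff.mp hcon).2

lemma isCompact_region : IsCompact (region n P δ) := by
  unfold region
  exact P.isCompact_biUnion (fun p _ => isCompact_closedBall _ _)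

lemma bumps_compact (hδ : 0 < δ) (h1 : η.rOut = 1) : HasCompactSupport (bumps η P δ) :=
  HasCompactSupport.intro (isCompact_region P δ) (fun _ hx => bumps_region η P δ hδ h1 hx)

lemma volume_region (hδ : 0 < δ) (hδ1 : δ ≤ 1) :
    volume (region n P δ) ≤ P.card * volume (ball (0 : E (n + 2)) 1) := by
  unfold region
  calc volume (⋃ p ∈ P, closedBall ((p : ℝ) • e0 n) δ)
      ≤ ∑ p ∈ P, volume (closedBall ((p : ℝ) • e0 n) δ) := measure_biUnion_finset_le _ _
    _ ≤ ∑ p ∈ P, volume (ball (0 : E (n + 2)) 1) := by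
        apply Finset.sum_le_sum
        intro p _
        rw [Measure.addHaar_closedBall _ _ hδ.le]
        calc ENNReal.ofReal (δ ^ Module.finrank ℝ (E (n + 2))) * volume (ball (0 : E (n + 2)) 1)
            ≤ 1 * volume (ball (0 : E (n + 2)) 1) := by
              gcongr
              rw [← ENNReal.ofReal_one]
              exact ENNReal.ofReal_le_ofReal (pow_le_one₀ hδ.le hδ1)
          _ = _ := one_mul _
    _ = P.card * volume (ball (0 : E (n + 2)) 1) := by rw [Finset.sum_const, nsmul_eq_mul]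

lemma eLpNorm_region {F : Type*} [NormedAddCommGroup F] {h : E (n + 2) → F} {M p : ℝ}
    (hp : 1 < p) (hδ : 0 < δ) (hδ1 : δ ≤ 1)
    (hb : ∀ x, ‖h x‖ ≤ M) (h0 : ∀ x, x ∉ region n P δ → h x = 0) :
    eLpNorm h (ENNReal.ofReal p) volume ≤
      ENNReal.ofReal M * (P.card * volume (ball (0 : E (n + 2)) 1)) ^ (1 / p) := by
  have hM : 0 ≤ M := le_trans (norm_nonneg _) (hb 0)
  have hle : eLpNorm h (ENNReal.ofReal p) volume ≤
      eLpNorm ((region n P δ).indicator (fun _ => M)) (ENNReal.ofReal p) volume := by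
    apply eLpNorm_mono
    intro x
    by_cases hx : x ∈ region n P δ
    · rw [indicator_of_mem hx, Real.norm_eq_abs, abs_of_nonneg hM]
      exact hb x
    · rw [h0 x hx, norm_zero]; exact norm_nonneg _
  refine le_trans hle ?_
  have hp0 : 0 < p := by linarith
  rw [eLpNorm_indicator_const (isCompact_region P δ).measurableSet
    (ENNReal.ofReal_pos.mpr hp0).ne' ENNReal.ofReal_ne_top, ENNReal.toReal_ofReal hp0.le,
    Real.enorm_eq_ofReal hM]
  gcongr
  exact volume_region P δ hδ hδ1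

end fn

/-- For a smooth compactly supported function the gradient is a weak gradient. -/
lemma hasWeakGrad_gradient {d : ℕ} {f : E d → ℝ} (hf : ContDiff ℝ ∞ f)
    (hc : HasCompactSupport f) : HasWeakGrad f (gradient f) := by
  have hgc : Continuous (gradient f) := by
    unfold gradient
    exact (InnerProductSpace.toDual ℝ (E d)).symm.continuous.comp
      (hf.continuous_fderiv (by simp))
  refine ⟨hf.continuous.locallyIntegrable, hgc.locallyIntegrable, ?_⟩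
  intro φ hφ hφc v
  have hin : ∀ x, inner ℝ (gradient f x) v = fderiv ℝ f x v := by
    intro x
    unfold gradient
    rw [InnerProductSpace.toDual_symm_apply]
  simp_rw [hin]
  have hfc : Continuous (fun x => fderiv ℝ f x v) :=
    (hf.continuous_fderiv (by simp)).clm_apply continuous_const
  have hφc' : Continuous (fun x => fderiv ℝ φ x v) :=
    (hφ.continuous_fderiv (by simp)).clm_apply continuous_const
  apply integral_mul_fderiv_eq_neg_fderiv_mul_of_integrable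
  · exact (hfc.mul hφ.continuous).integrable_of_hasCompactSupport hφc.mul_left
  · exact (hf.continuous.mul hφc').integrable_of_hasCompactSupport hc.mul_right
  · exact (hf.continuous.mul hφ.continuous).integrable_of_hasCompactSupport hφc.mul_left
  · intro x _
    exact hf.differentiable (by simp) x
  · intro x _
    exact hφ.differentiable (by simp) x

/-- The configuration of `2 N` integers. -/
def pts (N : ℕ) : Finset ℤ :=
  (Finset.range N).image (fun i : ℕ => (i : ℤ)) ∪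
    (Finset.range N).image (fun j : ℕ => (10 * N ^ 2 + j * N : ℤ))

lemma pts_card (N : ℕ) : (pts N).card ≤ 2 * N := by
  unfold pts
  calc _ ≤ ((Finset.range N).image (fun i : ℕ => (i : ℤ))).card +
        ((Finset.range N).image (fun j : ℕ => (10 * N ^ 2 + j * N : ℤ))).card :=
        Finset.card_union_le _ _
    _ ≤ (Finset.range N).card + (Finset.range N).card :=
        add_le_add Finset.card_image_le Finset.card_image_le
    _ = 2 * N := by rw [Finset.card_range]; ring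

/-- elements of the configuration -/
lemma pts_cases {N : ℕ} {p : ℤ} (hp : p ∈ pts N) :
    (0 ≤ (p : ℝ) ∧ (p : ℝ) ≤ N) ∨
      (10 * (N : ℝ) ^ 2 ≤ p ∧ (p : ℝ) ≤ 11 * (N : ℝ) ^ 2) := by
  unfold pts at hp
  rw [Finset.mem_union, Finset.mem_image, Finset.mem_image] at hp
  rcases hp with ⟨i, hi, rfl⟩ | ⟨j, hj, rfl⟩
  · left
    rw [Finset.mem_range] at hi
    push_cast
    exact ⟨Nat.cast_nonneg i, by exact_mod_cast hi.le⟩
  · right
    rw [Finset.mem_range] at hj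
    have hj' : (j : ℝ) ≤ N := by exact_mod_cast hj.le
    have hj0 : (0 : ℝ) ≤ j := Nat.cast_nonneg j
    have hN0 : (0 : ℝ) ≤ N := Nat.cast_nonneg N
    push_cast
    constructor
    · nlinarith
    · nlinarith

lemma pts_sep {N : ℕ} (hN : 2 ≤ N) {y : ℝ} (hy1 : 5 * (N : ℝ) ^ 2 - 1 ≤ y)
    (hy2 : y ≤ 11 / 2 * (N : ℝ) ^ 2 + 1) (hy3 : ∀ j : ℤ, 1 / 4 ≤ |2 * y - j|) :
    ∀ p ∈ pts N, ∀ q ∈ pts N, p ≠ q →
      2 * (N : ℝ) ^ 2 ≤ |(p : ℝ) - q| * |2 * y - (p + q)| := by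
  intro p hp q hq hpq
  have hNr : (2 : ℝ) ≤ N := by exact_mod_cast hN
  have hN2 : 2 * (N : ℝ) ≤ (N : ℝ) ^ 2 := by nlinarith
  have hint : 1 ≤ |(p : ℝ) - q| := by
    have h1 : 1 ≤ |p - q| := Int.one_le_abs (sub_ne_zero.mpr hpq)
    exact_mod_cast h1
  have hquarter : 1 / 4 ≤ |2 * y - (p + q)| := by
    have := hy3 (p + q)
    push_cast at this
    exact this
  rcases pts_cases hp with ⟨hp1, hp2⟩ | ⟨hp1, hp2⟩ <;>
    rcases pts_cases hq with ⟨hq1, hq2⟩ | ⟨hq1, hq2⟩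
  · have h1 : 2 * (N : ℝ) ^ 2 ≤ |2 * y - (p + q)| := by
      refine le_trans ?_ (le_abs_self _)
      linarith
    calc 2 * (N : ℝ) ^ 2 = 1 * (2 * (N : ℝ) ^ 2) := by ring
      _ ≤ _ := mul_le_mul hint h1 (by positivity) (abs_nonneg _)
  · have h1 : 8 * (N : ℝ) ^ 2 ≤ |(p : ℝ) - q| := by
      rw [abs_sub_comm]
      refine le_trans ?_ (le_abs_self _)
      linarith
    calc 2 * (N : ℝ) ^ 2 = 8 * (N : ℝ) ^ 2 * (1 / 4) := by ring
      _ ≤ _ := mul_le_mul h1 hquarter (by norm_num) (abs_nonneg _)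
  · have h1 : 8 * (N : ℝ) ^ 2 ≤ |(p : ℝ) - q| := by
      refine le_trans ?_ (le_abs_self _)
      linarith
    calc 2 * (N : ℝ) ^ 2 = 8 * (N : ℝ) ^ 2 * (1 / 4) := by ring
      _ ≤ _ := mul_le_mul h1 hquarter (by norm_num) (abs_nonneg _)
  · have h1 : 2 * (N : ℝ) ^ 2 ≤ |2 * y - (p + q)| := by
      rw [abs_sub_comm]
      refine le_trans ?_ (le_abs_self _)
      nlinarith
    calc 2 * (N : ℝ) ^ 2 = 1 * (2 * (N : ℝ) ^ 2) := by ring
      _ ≤ _ := mul_le_mul hint h1 (by positivity) (abs_nonneg _)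

/-- Distances from the points of the configuration. -/
lemma pts_dist {n N : ℕ} (hN : 2 ≤ N) {L : ℝ} (hL : 49 ≤ L) {x : E (n + 2)}
    (hx1 : 5 * (N : ℝ) ^ 2 - 1 ≤ x 0) (hx2 : x 0 ≤ 11 / 2 * (N : ℝ) ^ 2 + 1)
    (hx3 : ‖proj x - (L * (N : ℝ) ^ 2) • e1 n‖ < (N : ℝ) ^ 2 / 2) {p : ℤ} (hp : p ∈ pts N) :
    (L - 1 / 2) * (N : ℝ) ^ 2 ≤ ‖x - (p : ℝ) • e0 n‖ ∧
      ‖x - (p : ℝ) • e0 n‖ ≤ (L + 1) * (N : ℝ) ^ 2 := by
  have hNr : (2 : ℝ) ≤ N := by exact_mod_cast hN
  have hN2 : 2 * (N : ℝ) ≤ (N : ℝ) ^ 2 := by nlinarith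
  set S : ℝ := (N : ℝ) ^ 2 with hS
  have hS4 : 4 ≤ S := by nlinarith
  have hpr : 0 ≤ (p : ℝ) ∧ (p : ℝ) ≤ 11 * S := by
    rcases pts_cases hp with ⟨h1, h2⟩ | ⟨h1, h2⟩
    · exact ⟨h1, by linarith⟩
    · exact ⟨by linarith, h2⟩
  have hw : ‖(L * S) • e1 n‖ = L * S := by
    rw [norm_smul, norm_e1, mul_one, Real.norm_eq_abs, abs_of_nonneg (by positivity)]
  have hproj1 : ‖proj x‖ ≤ (L + 1 / 2) * S := by
    calc ‖proj x‖ = ‖(L * S) • e1 n + (proj x - (L * S) • e1 n)‖ := by congr 1; abel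
      _ ≤ ‖(L * S) • e1 n‖ + ‖proj x - (L * S) • e1 n‖ := norm_add_le _ _
      _ ≤ L * S + S / 2 := by rw [hw]; linarith
      _ = _ := by ring
  have hproj2 : (L - 1 / 2) * S ≤ ‖proj x‖ := by
    have : ‖(L * S) • e1 n‖ ≤ ‖proj x‖ + ‖proj x - (L * S) • e1 n‖ := by
      calc ‖(L * S) • e1 n‖ = ‖proj x - (proj x - (L * S) • e1 n)‖ := by congr 1; abel
        _ ≤ _ := norm_sub_le _ _
    rw [hw] at this
    linarith
  have hdec := dist_decomp x (p : ℝ)
  have hdec' : ‖x - (p : ℝ) • e0 n‖ ^ 2 = (x 0 - p) ^ 2 + ‖proj x‖ ^ 2 := hdec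
  have hx0 : (x 0 - p) ^ 2 ≤ (7 * S) ^ 2 := by
    apply sq_le_sq' <;> linarith [hpr.1, hpr.2]
  constructor
  · apply le_of_sq_le_sq _ (norm_nonneg _)
    rw [hdec']
    have h1 : ((L - 1 / 2) * S) ^ 2 ≤ ‖proj x‖ ^ 2 :=
      pow_le_pow_left₀ (by nlinarith) hproj2 2
    nlinarith [sq_nonneg (x 0 - p)]
  · apply le_of_sq_le_sq _ (by nlinarith)
    rw [hdec']
    have h1 : ‖proj x‖ ^ 2 ≤ ((L + 1 / 2) * S) ^ 2 :=
      pow_le_pow_left₀ (norm_nonneg _) hproj1 2
    have h2 : ((L + 1) * S) ^ 2 - ((L + 1 / 2) * S) ^ 2 - (7 * S) ^ 2 = (L + 3 / 4 - 49) * S ^ 2 := by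
      ring
    have h3 : 0 ≤ (L + 3 / 4 - 49) * S ^ 2 := by
      apply mul_nonneg _ (sq_nonneg _)
      linarith
    linarith

/-- The drop of the maximal function when moving off a bisector. -/
lemma drop {n N : ℕ} (hN : 2 ≤ N) {η : ContDiffBump (0 : E (n + 2))} {δ ε τ L Λ r : ℝ}
    (hrOut : η.rOut = 1) (hrIn : η.rIn = 1 - ε)
    (hδ : 0 < δ) (hε0 : 0 < ε) (hε1 : ε ≤ 1 / 4) (hτ0 : 0 ≤ τ) (hτ : τ ≤ ε * δ)
    (hτ1 : τ ≤ 1 / 8) (hδ1 : 2 * δ ≤ 1 / (L + 1)) (hδ2 : δ < 1 / 2)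
    (hL : 49 ≤ L) (hr : r = (1 - 2 * ε) * δ / ((L + 1) * (N : ℝ) ^ 2))
    (hΛ : Λ * r = δ / ((L - 1) * (N : ℝ) ^ 2)) (hgood : cp n (Λ * r) ≤ 3 / 2 * cp n r)
    {k : ℕ} (hk : k < N ^ 2) {x : E (n + 2)} (hx1 : |x 0 - (5 * (N : ℝ) ^ 2 + k / 2)| < τ)
    (hx3 : ‖proj x - (L * (N : ℝ) ^ 2) • e1 n‖ < (N : ℝ) ^ 2 / 2) :
    cp n r / 2 ≤ (sphMax (n + 2) (bumps η (pts N) δ) x).toReal -
      (sphMax (n + 2) (bumps η (pts N) δ) (x + (1 / 4 : ℝ) • e0 n)).toReal := by
  have hNr : (2 : ℝ) ≤ N := by exact_mod_cast hN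
  have hN2 : 2 * (N : ℝ) ≤ (N : ℝ) ^ 2 := by nlinarith
  have hNpos : 0 < N := by omega
  have hS2 : 2 ≤ (N : ℝ) ^ 2 := by nlinarith
  have hkr : (k : ℝ) + 1 ≤ (N : ℝ) ^ 2 := by exact_mod_cast hk
  have hk0 : (0 : ℝ) ≤ k := Nat.cast_nonneg k
  rw [abs_lt] at hx1
  have hfb : ∀ z, |bumps η (pts N) δ z| ≤ 1 := bumps_le_one η (pts N) δ hδ hδ2 hrOut
  have hη1 : ∀ z : E (n + 2), ‖z‖ ≤ 1 - ε → η z = 1 := by
    intro z hz
    apply η.one_of_mem_closedBall
    rw [mem_closedBall, dist_zero_right, hrIn]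
    exact hz
  have hη0 : ∀ z : E (n + 2), 1 ≤ ‖z‖ → η z = 0 := by
    intro z hz
    apply η.zero_of_le_dist
    rw [dist_zero_right, hrOut]
    exact hz
  have hηb : ∀ z : E (n + 2), |η z| ≤ 1 := by
    intro z
    rw [abs_of_nonneg η.nonneg]
    exact η.le_one
  -- the pair of points
  set i : ℕ := k % N with hi
  set j : ℕ := k / N with hj
  have hiN : i < N := Nat.mod_lt _ hNpos
  have hjN : j < N := by
    rw [hj, Nat.div_lt_iff_lt_mul hNpos]
    calc k < N ^ 2 := hk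
      _ = N * N := by ring
  have hkij : k = j * N + i := by rw [hi, hj]; exact (Nat.div_add_mod' k N).symm
  set a : ℤ := (i : ℤ) with ha
  set b : ℤ := (10 * N ^ 2 + j * N : ℤ) with hb
  have haP : a ∈ pts N := by
    unfold pts
    rw [Finset.mem_union, Finset.mem_image]
    exact Or.inl ⟨i, Finset.mem_range.mpr hiN, rfl⟩
  have hbP : b ∈ pts N := by
    unfold pts
    rw [Finset.mem_union, Finset.mem_image, Finset.mem_image]
    exact Or.inr ⟨j, Finset.mem_range.mpr hjN, rfl⟩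
  have har : (a : ℝ) = i := by rw [ha]; push_cast; rfl
  have hbr : (b : ℝ) = 10 * (N : ℝ) ^ 2 + j * N := by rw [hb]; push_cast; ring
  have hir : (i : ℝ) ≤ N := by exact_mod_cast hiN.le
  have hi0 : (0 : ℝ) ≤ i := Nat.cast_nonneg i
  have hjr : (j : ℝ) + 1 ≤ N := by exact_mod_cast hjN
  have hj0 : (0 : ℝ) ≤ j := Nat.cast_nonneg j
  have hkr2 : (k : ℝ) = j * N + i := by rw [hkij]; push_cast; ring
  have hjNr : (j : ℝ) * N ≤ (N : ℝ) ^ 2 := by nlinarith
  have hjN0 : (0 : ℝ) ≤ (j : ℝ) * N := by positivity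
  have hab : a < b := by
    have : (a : ℝ) < b := by rw [har, hbr]; linarith
    exact_mod_cast this
  -- lower bound at x
  have hd := fun {p : ℤ} (hp : p ∈ pts N) => pts_dist (n := n) hN hL (x := x) (by linarith [hx1.1])
    (by linarith [hx1.2]) hx3 hp
  have hlow := max_lower (n := n) (P := pts N) (fun z => η.nonneg) hη1 hδ hε0 hε1 hτ0 hτ hL hS2
    haP hbP hab (by rw [har, hbr]; linarith) (x := x)
    (by
      rw [har, hbr, abs_le]
      constructor <;> linarith [hx1.1, hx1.2])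
    (hd haP).1 (hd haP).2 (hd hbP).1 (hd hbP).2
  -- upper bound at the shifted point
  set y : E (n + 2) := x + (1 / 4 : ℝ) • e0 n with hy
  have hy0 : y 0 = x 0 + 1 / 4 := coord_add x _
  have hyproj : proj y = proj x := proj_add x _
  have hdy := fun (p : ℤ) (hp : p ∈ pts N) => pts_dist (n := n) hN hL (x := y)
    (by rw [hy0]; linarith [hx1.1]) (by rw [hy0]; linarith [hx1.2]) (by rw [hyproj]; exact hx3) hp
  have hsepy := pts_sep hN (y := y 0) (by rw [hy0]; linarith [hx1.1])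
    (by rw [hy0]; linarith [hx1.2])
    (by
      intro l
      rw [hy0]
      -- 2 (x0 + 1/4) is within 1/4 of a half integer
      have h1 : |2 * (x 0 + 1 / 4) - ((10 * N ^ 2 + k : ℤ) + 1 / 2 : ℝ)| ≤ 1 / 4 := by
        push_cast
        rw [abs_le]
        constructor <;> linarith [hx1.1, hx1.2]
      have h2 : (1 / 2 : ℝ) ≤ |((10 * N ^ 2 + k : ℤ) + 1 / 2 : ℝ) - l| := by
        rcases lt_or_ge (10 * (N : ℤ) ^ 2 + k) l with h | h
        · have h3 : (((10 * (N : ℤ) ^ 2 + k : ℤ)) : ℝ) + 1 ≤ l := by exact_mod_cast h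
          rw [abs_sub_comm]
          refine le_trans ?_ (le_abs_self _)
          linarith
        · have h3 : (l : ℝ) ≤ ((10 * (N : ℤ) ^ 2 + k : ℤ) : ℝ) := by exact_mod_cast h
          refine le_trans ?_ (le_abs_self _)
          linarith
      have h4 : |((10 * N ^ 2 + k : ℤ) + 1 / 2 : ℝ) - l| ≤
          |2 * (x 0 + 1 / 4) - ((10 * N ^ 2 + k : ℤ) + 1 / 2 : ℝ)| + |2 * (x 0 + 1 / 4) - l| := by
        rw [abs_sub_comm (2 * (x 0 + 1 / 4)) ((10 * N ^ 2 + k : ℤ) + 1 / 2 : ℝ)]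
        exact abs_sub_le _ _ _
      linarith)
  have hupp := max_upper (n := n) (P := pts N) hηb hη0 hδ hδ1 (by linarith) hL hS2 (x := y)
    (fun p hp => (hdy p hp).1) (fun p hp => (hdy p hp).2) hsepy
  rw [← hr] at hlow
  rw [← hΛ] at hupp
  have hfin : ∀ z, sphMax (n + 2) (bumps η (pts N) δ) z ≠ ⊤ := fun z =>
    ne_top_of_le_ne_top ENNReal.one_ne_top (max_le_one hfb z)
  have h1 := (ENNReal.ofReal_le_iff_le_toReal (hfin x)).mp hlow
  have h2 := ENNReal.toReal_le_of_le_ofReal (cp_nonneg n _) hupp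
  linarith

lemma exists_nat_sq {ρ : ℝ} (h : 1 ≤ ρ) :
    ∃ N : ℕ, 1 ≤ N ∧ (N : ℝ) ^ 2 ≤ ρ ∧ ρ ≤ 4 * (N : ℝ) ^ 2 := by
  have hs : 1 ≤ Real.sqrt ρ := Real.one_le_sqrt.mpr h
  have hs0 : 0 ≤ Real.sqrt ρ := Real.sqrt_nonneg _
  have hsq : Real.sqrt ρ ^ 2 = ρ := Real.sq_sqrt (by linarith)
  refine ⟨⌊Real.sqrt ρ⌋₊, Nat.floor_pos.mpr hs, ?_, ?_⟩
  · rw [← hsq]
    exact pow_le_pow_left₀ (Nat.cast_nonneg _) (by
      rw [hsq]
      exact Nat.floor_le hs0) 2
  · have h1 : 1 ≤ (⌊Real.sqrt ρ⌋₊ : ℝ) := by exact_mod_cast Nat.floor_pos.mpr hs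
    have h2 : Real.sqrt ρ < ⌊Real.sqrt ρ⌋₊ + 1 := Nat.lt_floor_add_one _
    have h3 : Real.sqrt ρ ≤ 2 * ⌊Real.sqrt ρ⌋₊ := by linarith
    calc ρ = Real.sqrt ρ ^ 2 := hsq.symm
      _ ≤ (2 * ⌊Real.sqrt ρ⌋₊) ^ 2 := pow_le_pow_left₀ hs0 h3 2
      _ = 4 * (⌊Real.sqrt ρ⌋₊ : ℝ) ^ 2 := by ring

/-- The growth condition for the ratio of the radii. -/
lemma ratio_pow (n : ℕ) {L ε : ℝ} (hL : L = 100 * ((n : ℝ) + 2)) (hε : ε = 1 / (100 * ((n : ℝ) + 2))) :
    1 < (L + 1) / ((1 - 2 * ε) * (L - 1)) ∧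
      ((L + 1) / ((1 - 2 * ε) * (L - 1))) ^ (n + 1) < 3 / 2 := by
  have hn : (0 : ℝ) ≤ n := Nat.cast_nonneg n
  have hL200 : 200 ≤ L := by rw [hL]; linarith
  have hεL : ε = 1 / L := by rw [hε, hL]
  have hLpos : 0 < L := by linarith
  have hε0 : 0 < ε := by rw [hεL]; positivity
  have hε1 : ε ≤ 1 / 200 := by
    rw [hεL]; exact one_div_le_one_div_of_le (by norm_num) hL200
  have hden : 0 < (1 - 2 * ε) * (L - 1) := by
    apply mul_pos <;> linarith
  set Λ := (L + 1) / ((1 - 2 * ε) * (L - 1)) with hΛ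
  have hΛ1 : 1 < Λ := by
    rw [hΛ, lt_div_iff₀ hden]
    nlinarith
  refine ⟨hΛ1, ?_⟩
  have hΛpos : 0 < Λ := by linarith
  have hinv : 1 + (-(4 / L)) ≤ 1 / Λ := by
    rw [hΛ, one_div_div, le_div_iff₀ (by linarith), hεL]
    have h1 : (1 - 2 * (1 / L)) * (L - 1) = L - 3 + 2 / L := by field_simp; ring
    have h2 : (1 + (-(4 / L))) * (L + 1) = L - 3 - 4 / L := by field_simp; ring
    rw [h1, h2]
    have h3 : 0 < 1 / L := by positivity
    have h4 : 2 / L = 2 * (1 / L) := by ring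
    have h5 : 4 / L = 4 * (1 / L) := by ring
    rw [h4, h5]
    linarith
  have hb : 4 / L ≤ 1 / 50 := by
    rw [div_le_div_iff₀ hLpos (by norm_num)]; linarith
  have hbern := one_add_mul_le_pow (a := -(4 / L)) (by linarith) (n + 1)
  have h6 : (1 + (-(4 / L))) ^ (n + 1) ≤ (1 / Λ) ^ (n + 1) :=
    pow_le_pow_left₀ (by linarith) hinv _
  have h7 : (9 / 10 : ℝ) ≤ 1 + ((n + 1 : ℕ) : ℝ) * (-(4 / L)) := by
    push_cast
    have h8 : ((n : ℝ) + 1) * (4 / L) ≤ 1 / 10 := by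
      rw [mul_div_assoc', div_le_div_iff₀ hLpos (by norm_num), hL]
      linarith
    linarith
  have h9 : (9 / 10 : ℝ) ≤ (1 / Λ) ^ (n + 1) := by linarith
  rw [div_pow, one_pow, le_div_iff₀ (by positivity)] at h9
  linarith

lemma strip_radius (n : ℕ) (S : ℝ) :
    ((n : ℝ) + 1) * (S / (4 * ((n : ℝ) + 2))) ^ 2 ≤ (S / 4) ^ 2 := by
  have hn : (0 : ℝ) ≤ n := Nat.cast_nonneg n
  rw [div_pow, div_pow, mul_div_assoc', div_le_div_iff₀ (by positivity) (by norm_num)]
  have h2 : ((n : ℝ) + 1) ≤ ((n : ℝ) + 2) ^ 2 := by nlinarith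
  have h4 := mul_le_mul_of_nonneg_left h2 (sq_nonneg S)
  calc ((n : ℝ) + 1) * S ^ 2 * 4 ^ 2 = 16 * (S ^ 2 * ((n : ℝ) + 1)) := by ring
    _ ≤ 16 * (S ^ 2 * ((n : ℝ) + 2) ^ 2) := by linarith
    _ = S ^ 2 * (4 * ((n : ℝ) + 2)) ^ 2 := by ring

/-- The main construction, with all constants made explicit. -/
lemma construction (n : ℕ) {p : ℝ} (hp : 1 < p) :
    ∃ c₁ c₂ c₃ : ℝ, 0 < c₁ ∧ 0 < c₂ ∧ 0 < c₃ ∧ ∀ M : ℝ, ∃ N : ℕ, M ≤ N ∧ 1 ≤ N ∧
      ∃ f : E (n + 2) → ℝ, ContDiff ℝ ∞ f ∧ HasCompactSupport f ∧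
        (∀ x, sphMax (n + 2) f x ≤ 1) ∧
        eLpNorm f (ENNReal.ofReal p) volume + eLpNorm (gradient f) (ENNReal.ofReal p) volume ≤
          ENNReal.ofReal (c₂ * (N : ℝ) ^ (1 / p)) ∧
        ∀ G : E (n + 2) → E (n + 2), HasWeakGrad (fun x => (sphMax (n + 2) f x).toReal) G →
          ENNReal.ofReal (c₁ * (N : ℝ) ^ 2) ≤ eLpNorm G (ENNReal.ofReal p) volume *
            (ENNReal.ofReal (c₃ * ((N : ℝ) ^ 2) ^ (n + 2))) ^ (1 - 1 / p) := by
  have hn : (0 : ℝ) ≤ n := Nat.cast_nonneg n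
  set L : ℝ := 100 * ((n : ℝ) + 2) with hL
  set ε : ℝ := 1 / (100 * ((n : ℝ) + 2)) with hε
  obtain ⟨hΛ1, hΛ2⟩ := ratio_pow n hL hε
  set Λ : ℝ := (L + 1) / ((1 - 2 * ε) * (L - 1)) with hΛdef
  have hL200 : 200 ≤ L := by rw [hL]; linarith
  have hεL : ε = 1 / L := by rw [hε, hL]
  have hε0 : 0 < ε := by rw [hεL]; positivity
  have hε1 : ε ≤ 1 / 200 := by
    rw [hεL]; exact one_div_le_one_div_of_le (by norm_num) hL200
  have h12ε : 0 < 1 - 2 * ε := by linarith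
  set δ₀ : ℝ := 1 / (4 * (L + 1)) with hδ₀
  have hδ₀0 : 0 < δ₀ := by positivity
  have hδ₀1 : δ₀ ≤ 1 / 800 := by
    rw [hδ₀]; exact one_div_le_one_div_of_le (by norm_num) (by linarith)
  set τ : ℝ := ε * δ₀ / 4 with hτ
  have hτ0 : 0 < τ := by positivity
  have hτ8 : τ ≤ 1 / 8 := by
    have h1 : ε * δ₀ ≤ 1 / 200 * (1 / 800) := mul_le_mul hε1 hδ₀1 hδ₀0.le (by norm_num)
    rw [hτ]
    linarith
  obtain ⟨c₀, hc₀, hcap⟩ := cp_lower n
  -- the bump
  let η : ContDiffBump (0 : E (n + 2)) := ⟨1 - ε, 1, by linarith, by linarith⟩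
  have hηOut : η.rOut = 1 := rfl
  have hηIn : η.rIn = 1 - ε := rfl
  have hηsm : ContDiff ℝ ∞ η := η.contDiff
  obtain ⟨Kη, hKη⟩ := (hηsm.continuous_fderiv (by simp)).bounded_above_of_compact_support
    (η.hasCompactSupport.fderiv ℝ)
  have hKη0 : 0 ≤ Kη := le_trans (norm_nonneg _) (hKη 0)
  let θ : ContDiffBump (0 : ℝ) := ⟨τ / 2, τ, by linarith, by linarith⟩
  have hθOut : θ.rOut = τ := rfl
  have hθIn : θ.rIn = τ / 2 := rfl
  -- the volume of the unit ball
  have hV0 : volume (ball (0 : E (n + 2)) 1) ≠ 0 := (measure_ball_pos volume _ one_pos).ne'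
  have hVt : volume (ball (0 : E (n + 2)) 1) ≠ ⊤ := measure_ball_lt_top.ne
  set V : ℝ := (volume (ball (0 : E (n + 2)) 1)).toReal with hV
  have hVpos : 0 < V := ENNReal.toReal_pos hV0 hVt
  have hVof : volume (ball (0 : E (n + 2)) 1) = ENNReal.ofReal V := by
    rw [hV, ENNReal.ofReal_toReal hVt]
  have hp0 : 0 < p := by linarith
  refine ⟨(c₀ / 2) * ((1 - 2 * ε) * (δ₀ / 4) / (L + 1)) ^ (n + 1) * τ *
      (1 / (2 * ((n : ℝ) + 2))) ^ (n + 1),
    (1 + 4 * Kη / δ₀) * (2 * V) ^ (1 / p), (L + 8) ^ (n + 2) * V, by positivity, by positivity,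
    by positivity, ?_⟩
  intro M
  -- choice of the radius and of N
  set M' : ℝ := |M| + 2 with hM'
  have hM'2 : 2 ≤ M' := by rw [hM']; linarith [abs_nonneg M]
  set ρmin : ℝ := 4 * M' ^ 2 with hρmin
  have hρmin0 : 0 < ρmin := by positivity
  set r₀ : ℝ := min 1 (δ₀ * (1 - 2 * ε) / ((L + 1) * ρmin)) with hr₀
  have hr₀0 : 0 < r₀ := lt_min one_pos (by positivity)
  obtain ⟨r, hr0, hrr₀, hgood⟩ := good_radius n hΛ1 hΛ2 hr₀0
  have hr1 : r ≤ 1 := le_trans hrr₀ (min_le_left _ _)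
  have hr2 : r ≤ δ₀ * (1 - 2 * ε) / ((L + 1) * ρmin) := le_trans hrr₀ (min_le_right _ _)
  set ρ : ℝ := δ₀ * (1 - 2 * ε) / ((L + 1) * r) with hρ
  have hρge : ρmin ≤ ρ := by
    rw [hρ, le_div_iff₀ (by positivity)]
    rw [le_div_iff₀ (by positivity)] at hr2
    linarith
  have hρpos : 0 < ρ := lt_of_lt_of_le hρmin0 hρge
  have hρ1 : 1 ≤ ρ := by
    refine le_trans ?_ hρge
    have h1 : (2 : ℝ) ^ 2 ≤ M' ^ 2 := pow_le_pow_left₀ (by norm_num) hM'2 2
    rw [hρmin]; linarith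
  obtain ⟨N, hN1, hNρ, hρN⟩ := exists_nat_sq hρ1
  have hNM : M' ≤ N := by
    have h1 : M' ^ 2 ≤ (N : ℝ) ^ 2 := by linarith
    exact le_of_sq_le_sq h1 (Nat.cast_nonneg N)
  have hN2r : (2 : ℝ) ≤ N := by linarith
  have hN2 : 2 ≤ N := by exact_mod_cast hN2r
  have hNpos : (0 : ℝ) < N := by linarith
  set S : ℝ := (N : ℝ) ^ 2 with hS
  have hSpos : 0 < S := by positivity
  have hS4 : 4 ≤ S := by
    have h1 : (2 : ℝ) ^ 2 ≤ (N : ℝ) ^ 2 := pow_le_pow_left₀ (by norm_num) hN2r 2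
    rw [hS]; linarith
  set δ : ℝ := r * (L + 1) * S / (1 - 2 * ε) with hδdef
  have hδρ : δ = δ₀ * S / ρ := by
    rw [hδdef, hρ]; field_simp
  have hδ_le : δ ≤ δ₀ := by
    rw [hδρ, div_le_iff₀ hρpos]
    exact mul_le_mul_of_nonneg_left hNρ hδ₀0.le
  have hδ_ge : δ₀ / 4 ≤ δ := by
    rw [hδρ, le_div_iff₀ hρpos]
    calc δ₀ / 4 * ρ ≤ δ₀ / 4 * (4 * S) := mul_le_mul_of_nonneg_left hρN (by positivity)
      _ = δ₀ * S := by ring
  have hδ0 : 0 < δ := by linarith
  have hrδ : r = (1 - 2 * ε) * δ / ((L + 1) * S) := by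
    rw [hδdef]; field_simp
  have hΛr : Λ * r = δ / ((L - 1) * S) := by
    have hL1 : L - 1 ≠ 0 := by linarith
    rw [hrδ, hΛdef]
    field_simp
  -- the function
  refine ⟨N, by linarith [le_abs_self M], hN1, bumps η (pts N) δ, contDiff_bumps η _ δ,
    bumps_compact η _ δ hδ0 hηOut,
    max_le_one (bumps_le_one η _ δ hδ0 (by linarith) hηOut), ?_, ?_⟩
  · -- norms
    have hcard : ((pts N).card : ℝ≥0∞) * volume (ball (0 : E (n + 2)) 1) ≤
        ENNReal.ofReal (2 * V * N) := by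
      have h1 : ((pts N).card : ℝ≥0∞) ≤ ENNReal.ofReal (2 * N) := by
        rw [← ENNReal.ofReal_natCast]
        apply ENNReal.ofReal_le_ofReal
        have := pts_card N
        exact_mod_cast this
      calc ((pts N).card : ℝ≥0∞) * volume (ball (0 : E (n + 2)) 1)
          ≤ ENNReal.ofReal (2 * N) * ENNReal.ofReal V := by
            rw [← hVof]
            gcongr
        _ = ENNReal.ofReal (2 * V * N) := by
            rw [← ENNReal.ofReal_mul (by positivity)]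
            congr 1
            ring
    have hpow : (((pts N).card : ℝ≥0∞) * volume (ball (0 : E (n + 2)) 1)) ^ (1 / p) ≤
        ENNReal.ofReal ((2 * V) ^ (1 / p) * (N : ℝ) ^ (1 / p)) := by
      calc _ ≤ (ENNReal.ofReal (2 * V * N)) ^ (1 / p) :=
            ENNReal.rpow_le_rpow hcard (by positivity)
        _ = _ := by
            rw [ENNReal.ofReal_rpow_of_nonneg (by positivity) (by positivity),
              Real.mul_rpow (by positivity) (by positivity)]
    have hf1 := eLpNorm_region (n := n) (pts N) δ (h := bumps η (pts N) δ) (M := 1) hp hδ0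
      (by linarith) (fun x => by
        rw [Real.norm_eq_abs]
        exact bumps_le_one η _ δ hδ0 (by linarith) hηOut x)
      (fun x hx => bumps_region η _ δ hδ0 hηOut hx)
    have hg1 := eLpNorm_region (n := n) (pts N) δ (h := gradient (bumps η (pts N) δ))
      (M := δ⁻¹ * Kη) hp hδ0 (by linarith)
      (fun x => by
        unfold gradient
        rw [LinearIsometryEquiv.norm_map]
        exact fderiv_bumps_le η _ δ hδ0 (by linarith) hηOut hKη x)
      (fun x hx => by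
        unfold gradient
        rw [fderiv_bumps_region η _ δ hδ0 hηOut hx, map_zero])
    calc _ ≤ ENNReal.ofReal 1 * ENNReal.ofReal ((2 * V) ^ (1 / p) * (N : ℝ) ^ (1 / p)) +
          ENNReal.ofReal (δ⁻¹ * Kη) * ENNReal.ofReal ((2 * V) ^ (1 / p) * (N : ℝ) ^ (1 / p)) := by
          apply add_le_add
          · exact le_trans hf1 (mul_le_mul_right hpow _)
          · exact le_trans hg1 (mul_le_mul_right hpow _)
      _ = ENNReal.ofReal ((1 + δ⁻¹ * Kη) * ((2 * V) ^ (1 / p) * (N : ℝ) ^ (1 / p))) := by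
          rw [← add_mul, ← ENNReal.ofReal_add one_pos.le (by positivity),
            ← ENNReal.ofReal_mul (by positivity)]
      _ ≤ ENNReal.ofReal ((1 + 4 * Kη / δ₀) * (2 * V) ^ (1 / p) * (N : ℝ) ^ (1 / p)) := by
          apply ENNReal.ofReal_le_ofReal
          rw [mul_assoc]
          apply mul_le_mul_of_nonneg_right _ (by positivity)
          have h1 : δ⁻¹ ≤ 4 / δ₀ := by
            rw [inv_le_comm₀ hδ0 (by positivity), inv_div]
            exact hδ_ge
          have h2 : δ⁻¹ * Kη ≤ 4 / δ₀ * Kη := mul_le_mul_of_nonneg_right h1 hKη0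
          have h3 : 4 / δ₀ * Kη = 4 * Kη / δ₀ := by ring
          linarith
  · -- the gradient of the maximal function
    intro G hG
    let β : ContDiffBump ((L * S) • e1 n) := ⟨S / 4, S / 2, by linarith, by linarith⟩
    have hβOut : β.rOut = S / 2 := rfl
    have hβIn : β.rIn = S / 4 := rfl
    have hθ8 : θ.rOut ≤ 1 / 8 := hτ8
    set Ψ := testF θ β (5 * S) (N ^ 2) with hΨ
    obtain ⟨hu, hGl, hweak⟩ := hG
    have hlow := integral_lower hu θ β (5 * S) (N ^ 2) (γ := cp n r / 2) (by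
      intro k hk x hx1 hx2
      exact drop hN2 hηOut hηIn hδ0 hε0 (by linarith) hτ0.le
        (by
          have h1 := mul_le_mul_of_nonneg_left hδ_ge hε0.le
          rw [hτ]
          linarith) hτ8
        (by
          rw [le_div_iff₀ (by linarith)]
          have h1 : δ₀ * (4 * (L + 1)) = 1 := by rw [hδ₀]; field_simp
          have h2 : δ * (L + 1) ≤ δ₀ * (L + 1) := mul_le_mul_of_nonneg_right hδ_le (by linarith)
          linarith) (by linarith) (by linarith) hrδ hΛr hgood hk hx1 hx2)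
    have hint := hweak Ψ (contDiff_testF θ β _ _) (testF_compact θ hθ8 β (by positivity) _) (e0 n)
    rw [hint] at hlow
    -- lower bound for the left side
    have hstrip : ∀ k ∈ Finset.range (N ^ 2), τ * (S / (2 * ((n : ℝ) + 2))) ^ (n + 1) ≤
        ∫ x, strip θ β (5 * S + k / 2) x := by
      intro k _
      have h1 := strip_integral_lower θ β (5 * S + k / 2) (ρ := S / (4 * ((n : ℝ) + 2)))
        (by positivity) (by
          rw [hβIn]
          exact strip_radius n S)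
      rw [hθIn] at h1
      have e1 : 2 * (τ / 2) = τ := by ring
      have e2 : 2 * (S / (4 * ((n : ℝ) + 2))) = S / (2 * ((n : ℝ) + 2)) := by
        field_simp; ring
      rw [e1, e2] at h1
      exact h1
    have h4S : ((N ^ 2 : ℕ) : ℝ) = S := by rw [hS]; push_cast; ring
    have hsum : S * (τ * (S / (2 * ((n : ℝ) + 2))) ^ (n + 1)) ≤
        ∑ k ∈ Finset.range (N ^ 2), ∫ x, strip θ β (5 * S + k / 2) x := by
      calc _ = ∑ k ∈ Finset.range (N ^ 2), τ * (S / (2 * ((n : ℝ) + 2))) ^ (n + 1) := by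
            rw [Finset.sum_const, Finset.card_range, nsmul_eq_mul, h4S]
        _ ≤ _ := Finset.sum_le_sum hstrip
    have hcpr : c₀ * r ^ (n + 1) ≤ cp n r := hcap r hr0 hr1
    have hr_ge : (1 - 2 * ε) * (δ₀ / 4) / (L + 1) / S ≤ r := by
      rw [hrδ, div_div]
      apply div_le_div_of_nonneg_right _ (by positivity)
      exact mul_le_mul_of_nonneg_left hδ_ge h12ε.le
    have hI : (c₀ / 2) * ((1 - 2 * ε) * (δ₀ / 4) / (L + 1)) ^ (n + 1) * τ *
        (1 / (2 * ((n : ℝ) + 2))) ^ (n + 1) * S ≤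
        - ∫ x, inner ℝ (G x) (e0 n) * Ψ x := by
      refine le_trans ?_ hlow
      have h1 : c₀ / 2 * ((1 - 2 * ε) * (δ₀ / 4) / (L + 1) / S) ^ (n + 1) ≤ cp n r / 2 := by
        have h2 : ((1 - 2 * ε) * (δ₀ / 4) / (L + 1) / S) ^ (n + 1) ≤ r ^ (n + 1) :=
          pow_le_pow_left₀ (by positivity) hr_ge _
        have h3 : c₀ * ((1 - 2 * ε) * (δ₀ / 4) / (L + 1) / S) ^ (n + 1) ≤ c₀ * r ^ (n + 1) :=
          mul_le_mul_of_nonneg_left h2 hc₀.le
        linarith
      calc _ = (c₀ / 2 * ((1 - 2 * ε) * (δ₀ / 4) / (L + 1) / S) ^ (n + 1)) *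
            (S * (τ * (S / (2 * ((n : ℝ) + 2))) ^ (n + 1))) := by
            rw [div_pow _ S, div_pow S, one_div, inv_pow]
            field_simp
        _ ≤ cp n r / 2 * (S * (τ * (S / (2 * ((n : ℝ) + 2))) ^ (n + 1))) :=
            mul_le_mul_of_nonneg_right h1 (by positivity)
        _ ≤ _ := by
            apply mul_le_mul_of_nonneg_left hsum (by linarith [cp_nonneg n r])
    have hup := holder_upper hp hGl (Ψ := Ψ) (R := (L + 8) * S)
      (by
        intro x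
        rw [abs_of_nonneg (testF_nonneg θ β _ _ x)]
        exact testF_le_one θ hθ8 β _ _ x) (by positivity)
      (by
        intro x hx
        refine le_trans (testF_support θ hθ8 β (by positivity) _ hx) ?_
        rw [norm_smul, norm_e1, mul_one, Real.norm_eq_abs, abs_of_nonneg (by positivity), hβOut]
        rw [h4S]
        have h5 : (L + 8) * S = L * S + 8 * S := by ring
        rw [h5]
        linarith) (norm_e0 n) hI
    refine le_trans hup (le_of_eq ?_)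
    congr 2
    rw [hVof, ← ENNReal.ofReal_mul (by positivity), mul_pow]
    congr 1
    ring

/-- `M_S` is gradient-bounded on `W^{1,p}(ℝ^d)`: there is a constant `C` such that for every
`f ∈ L^p` with weak gradient `g ∈ L^p` the function `M_S f` has a weak gradient `G` with
`‖G‖_p ≤ C (‖f‖_p + ‖g‖_p)`. -/
def GradBounded (d : ℕ) (p : ℝ) : Prop :=
  ∃ C : ℝ≥0, ∀ (f : E d → ℝ) (g : E d → E d),
    MemLp f (ENNReal.ofReal p) volume → MemLp g (ENNReal.ofReal p) volume → HasWeakGrad f g →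
      ∃ G : E d → E d, HasWeakGrad (fun x => (sphMax d f x).toReal) G ∧
        eLpNorm G (ENNReal.ofReal p) volume ≤
          C * (eLpNorm f (ENNReal.ofReal p) volume + eLpNorm g (ENNReal.ofReal p) volume)

/-- Quantitative failure: for every `C` there is a smooth compactly supported `f`, with `M_S f ≤ 1`
everywhere, such that every weak gradient of `M_S f` has `L^p` norm larger than
`C (‖f‖_p + ‖∇f‖_p)`. -/
lemma blowup (n : ℕ) {p : ℝ} (hp : 1 < p) (hp' : p < 1 + 1 / (2 * ((n : ℝ) + 1))) (C : ℝ≥0) :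
    ∃ f : E (n + 2) → ℝ, ContDiff ℝ ∞ f ∧ HasCompactSupport f ∧
      (∀ x, sphMax (n + 2) f x ≤ 1) ∧
      ∀ G : E (n + 2) → E (n + 2), HasWeakGrad (fun x => (sphMax (n + 2) f x).toReal) G →
        C * (eLpNorm f (ENNReal.ofReal p) volume +
          eLpNorm (gradient f) (ENNReal.ofReal p) volume) <
            eLpNorm G (ENNReal.ofReal p) volume := by
  have hn : (0 : ℝ) ≤ n := Nat.cast_nonneg n
  have hp0 : 0 < p := by linarith
  obtain ⟨c₁, c₂, c₃, hc₁, hc₂, hc₃, hmain⟩ := construction n hp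
  set κ : ℝ := 1 / p + 2 * ((n : ℝ) + 2) * (1 - 1 / p) with hκ
  have hκ2 : κ < 2 := by
    have h1 : p * (2 * ((n : ℝ) + 1)) < 2 * n + 3 := by
      have h2 : p * (2 * ((n : ℝ) + 1)) < (1 + 1 / (2 * ((n : ℝ) + 1))) * (2 * ((n : ℝ) + 1)) :=
        mul_lt_mul_of_pos_right hp' (by positivity)
      have h3 : (1 + 1 / (2 * ((n : ℝ) + 1))) * (2 * ((n : ℝ) + 1)) = 2 * n + 3 := by
        field_simp; ring
      linarith
    have h4 : κ = (1 + 2 * ((n : ℝ) + 2) * (p - 1)) / p := by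
      rw [hκ]; field_simp
    rw [h4, div_lt_iff₀ hp0]
    linarith
  set c₄ : ℝ := C * c₂ * c₃ ^ (1 - 1 / p) with hc₄
  have hC0 : (0 : ℝ) ≤ C := C.2
  have hexp : 0 ≤ 1 - 1 / p := by
    rw [sub_nonneg, div_le_one hp0]; exact hp.le
  -- choice of M
  obtain ⟨M, hM⟩ : ∃ M : ℝ, ∀ x : ℝ, M ≤ x → c₄ / c₁ < x ^ (2 - κ) := by
    have h1 := tendsto_rpow_atTop (by linarith : 0 < 2 - κ)
    have h2 := h1.eventually (Filter.eventually_gt_atTop (c₄ / c₁))
    exact Filter.eventually_atTop.mp h2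
  obtain ⟨N, hMN, hN1, f, hf, hfc, hf1, hnorm, hG⟩ := hmain M
  have hNr : (1 : ℝ) ≤ N := by exact_mod_cast hN1
  have hNpos : (0 : ℝ) < N := by linarith
  refine ⟨f, hf, hfc, hf1, fun G hwG => ?_⟩
  by_contra hcon
  have hGle := not_lt.mp hcon
  have h1 := hG G hwG
  have h2 : eLpNorm G (ENNReal.ofReal p) volume ≤
      ENNReal.ofReal (C * (c₂ * (N : ℝ) ^ (1 / p))) := by
    refine le_trans hGle ?_
    rw [ENNReal.ofReal_mul hC0, ENNReal.ofReal_coe_nnreal]
    exact mul_le_mul_right hnorm _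
  have h3 : (ENNReal.ofReal (c₃ * ((N : ℝ) ^ 2) ^ (n + 2))) ^ (1 - 1 / p) =
      ENNReal.ofReal (c₃ ^ (1 - 1 / p) * (N : ℝ) ^ (2 * ((n : ℝ) + 2) * (1 - 1 / p))) := by
    rw [ENNReal.ofReal_rpow_of_nonneg (by positivity) hexp,
      Real.mul_rpow hc₃.le (by positivity)]
    congr 2
    rw [← pow_mul, ← Real.rpow_natCast, ← Real.rpow_mul hNpos.le]
    push_cast
    rfl
  have h4 : ENNReal.ofReal (c₁ * (N : ℝ) ^ 2) ≤ ENNReal.ofReal (c₄ * (N : ℝ) ^ κ) := by
    refine le_trans h1 ?_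
    rw [h3]
    calc _ ≤ ENNReal.ofReal (C * (c₂ * (N : ℝ) ^ (1 / p))) *
          ENNReal.ofReal (c₃ ^ (1 - 1 / p) * (N : ℝ) ^ (2 * ((n : ℝ) + 2) * (1 - 1 / p))) := by
          gcongr
      _ = ENNReal.ofReal (c₄ * (N : ℝ) ^ κ) := by
          rw [← ENNReal.ofReal_mul (by positivity)]
          congr 1
          rw [hκ, Real.rpow_add hNpos, hc₄]
          ring
  have h5 : c₁ * (N : ℝ) ^ 2 ≤ c₄ * (N : ℝ) ^ κ := by
    refine (ENNReal.ofReal_le_ofReal_iff ?_).mp h4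
    have : 0 ≤ c₄ := by positivity
    positivity
  have h6 := hM N hMN
  rw [div_lt_iff₀ hc₁] at h6
  have h7 : (N : ℝ) ^ 2 = (N : ℝ) ^ (2 - κ) * (N : ℝ) ^ κ := by
    rw [← Real.rpow_add hNpos]
    have : 2 - κ + κ = ((2 : ℕ) : ℝ) := by push_cast; ring
    rw [this, Real.rpow_natCast]
  have h8 : 0 < (N : ℝ) ^ κ := Real.rpow_pos_of_pos hNpos _
  rw [h7] at h5
  have h9 : c₄ * (N : ℝ) ^ κ < (N : ℝ) ^ (2 - κ) * c₁ * (N : ℝ) ^ κ :=
    mul_lt_mul_of_pos_right h6 h8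
  have h10 : c₁ * ((N : ℝ) ^ (2 - κ) * (N : ℝ) ^ κ) = (N : ℝ) ^ (2 - κ) * c₁ * (N : ℝ) ^ κ := by
    ring
  rw [h10] at h5
  exact absurd h5 (not_le.mpr h9)

lemma not_gradBounded (n : ℕ) {p : ℝ} (hp : 1 < p) (hp' : p < 1 + 1 / (2 * ((n : ℝ) + 1))) :
    ¬ GradBounded (n + 2) p := by
  rintro ⟨C, hC⟩
  obtain ⟨f, hf, hfc, -, hG⟩ := blowup n hp hp' C
  have hgcont : Continuous (gradient f) := by
    unfold gradient
    exact (InnerProductSpace.toDual ℝ (E (n + 2))).symm.continuous.comp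
      (hf.continuous_fderiv (by simp))
  have hgcs : HasCompactSupport (gradient f) := by
    unfold gradient
    exact (hfc.fderiv ℝ).comp_left (g := fun l => (InnerProductSpace.toDual ℝ (E (n + 2))).symm l)
      (map_zero _)
  obtain ⟨G, hwG, hGle⟩ := hC f (gradient f) (hf.continuous.memLp_of_hasCompactSupport hfc)
    (hgcont.memLp_of_hasCompactSupport hgcs) (hasWeakGrad_gradient hf hfc)
  exact absurd hGle (not_le.mpr (hG G hwG))

/-- **Negative answer to Q1 of MP_ff3fe0_an.**  For every dimension `d ≥ 2` and every `p` with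
`1 < p < 1 + 1 / (2 (d - 1))` the spherical maximal operator is not gradient-bounded on
`W^{1,p}(ℝ^d)`.  The failure is already visible on smooth compactly supported functions `f` with
`M_S f ≤ 1` everywhere (so it is not caused by infinite values of `M_S f`): for every `C` there is
such an `f` for which no weak gradient `G` of `M_S f` satisfies
`‖G‖_p ≤ C (‖f‖_p + ‖∇f‖_p)`. -/
theorem result (d : ℕ) (hd : 2 ≤ d) (p : ℝ) (hp : 1 < p) (hp' : p < 1 + 1 / (2 * ((d : ℝ) - 1))) :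
    ¬ GradBounded d p ∧
    ∀ C : ℝ≥0, ∃ f : E d → ℝ, ContDiff ℝ ∞ f ∧ HasCompactSupport f ∧
      (∀ x, sphMax d f x ≤ 1) ∧
      ∀ G : E d → E d, HasWeakGrad (fun x => (sphMax d f x).toReal) G →
        C * (eLpNorm f (ENNReal.ofReal p) volume +
          eLpNorm (gradient f) (ENNReal.ofReal p) volume) <
            eLpNorm G (ENNReal.ofReal p) volume := by
  obtain ⟨n, rfl⟩ : ∃ n, d = n + 2 := ⟨d - 2, by omega⟩
  have : ((n + 2 : ℕ) : ℝ) - 1 = (n : ℝ) + 1 := by push_cast; ring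
  rw [this] at hp'
  exact ⟨not_gradBounded n hp hp', fun C => blowup n hp hp' C⟩

end Pool.Agent.Results.MP_ff3fe0_an.SphericalSmallP
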